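import Pool.Agent.THF.O.Defs

/-!
# THF/O-Bes: Bessel's inequality

PLAN.  Adapt `bessel` (MD/E/Bes.lean).  Fix `δ`, `p_v = N_v^(-(1+δ))`, `L = log (1/δ)`, `ε_i = ± 1` the sign of `∑ F u_i p` (it may depend on `δ`).
`0 ≤ ∑ (F - κ ∑_i ε_i u_i)² p = ∑ F² p - 2 κ ∑_i |∑ F u_i p| + κ² ∑_(i,j) ε_i ε_j ∑ u_i u_j p ≤ B² (L + C) - 2 κ n (κ L - C) + κ² (n (L + C) + n² C)`
`= (B² - n κ²) L + C'`, and `B² < n κ²`, `L → ∞`: contradiction.  Here `∑ p ≤ L + C`: `psum_le` (LD/E/Zeta); `∑ F u_i p = k_i L + O(1)`, `|k_i| ≥ κ`; `u_i² ≤ 1`; `∑ u_i u_j p = O(1)` (`ho`, `SumO` with `κ = 0`).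
-/

namespace Pool.Agent.THF

open NumberField IsDedekindDomain Pool.Agent.HWR Pool.Agent.QD Pool.Agent.QD.In Pool.Agent.LD
  Pool.Agent.MD

private theorem sb_offDiag {n : ℕ} (f : Fin n → ℝ) :
    (∑ i, f i) ^ 2 = ∑ i, f i ^ 2 + ∑ x ∈ (Finset.univ : Finset (Fin n)).offDiag, f x.1 * f x.2 := by
  have h1 : (∑ i, f i) ^ 2 = ∑ x ∈ (Finset.univ : Finset (Fin n)) ×ˢ Finset.univ, f x.1 * f x.2 := by
    rw [sq, Finset.sum_mul_sum, Finset.sum_product]
  rw [h1, ← Finset.diag_union_offDiag, Finset.sum_union (Finset.disjoint_diag_offDiag _), Finset.sum_diag]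
  simp only [sq]

private theorem sb_alg {n : ℕ} (a : ℝ) {B κ : ℝ} (ha : |a| ≤ B) (f s : Fin n → ℝ)
    (hf : ∀ i, |f i| ≤ 1) (hs : ∀ i, |s i| = 1) :
    0 ≤ (B ^ 2 + n * κ ^ 2) - 2 * κ * ∑ i, s i * (a * f i) +
      κ ^ 2 * ∑ x ∈ (Finset.univ : Finset (Fin n)).offDiag, (s x.1 * s x.2) * (f x.1 * f x.2) := by
  have h1 : ∑ i, (s i * f i) ^ 2 ≤ n := by
    calc ∑ i, (s i * f i) ^ 2 ≤ ∑ _i : Fin n, (1 : ℝ) := by
          refine Finset.sum_le_sum fun i _ => ?_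
          rw [← sq_abs, abs_mul, hs i, one_mul]
          exact pow_le_one₀ (abs_nonneg _) (hf i)
      _ = n := by simp
  have h2 := sb_offDiag fun i => s i * f i
  have h3 : ∑ x ∈ (Finset.univ : Finset (Fin n)).offDiag, (s x.1 * f x.1) * (s x.2 * f x.2) =
      ∑ x ∈ (Finset.univ : Finset (Fin n)).offDiag, (s x.1 * s x.2) * (f x.1 * f x.2) :=
    Finset.sum_congr rfl fun x _ => by ring
  have h4 : ∑ i, s i * (a * f i) = a * ∑ i, s i * f i := by
    rw [Finset.mul_sum]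
    exact Finset.sum_congr rfl fun i _ => by ring
  rw [h3] at h2
  rw [h4]
  obtain ⟨T, hT⟩ : ∃ T, T = ∑ i, s i * f i := ⟨_, rfl⟩
  obtain ⟨D, hD⟩ : ∃ D, D = ∑ x ∈ (Finset.univ : Finset (Fin n)).offDiag,
    (s x.1 * s x.2) * (f x.1 * f x.2) := ⟨_, rfl⟩
  rw [← hT, ← hD] at h2
  rw [← hT, ← hD]
  have h5 : a ^ 2 ≤ B ^ 2 := by
    rw [← sq_abs]
    exact pow_le_pow_left₀ (abs_nonneg _) ha 2
  have h6 : T ^ 2 - D ≤ n := by linarith
  nlinarith [sq_nonneg (a - κ * T), mul_le_mul_of_nonneg_left h6 (sq_nonneg κ)]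

private theorem sb_core {ι : Type} {n : ℕ} (N : ι → ℝ) {B κ : ℝ} (hκ : 0 < κ)
    (hn : B ^ 2 < n * κ ^ 2) (hN : ∀ v, 1 ≤ N v)
    (hsum : ∀ x : ℝ, 1 < x → Summable fun v => N v ^ (-x)) (u : Fin n → ι → ℝ)
    (hu : ∀ i v, |u i v| ≤ 1) (F : ι → ℝ) (hF : ∀ v, |F v| ≤ B)
    {C δ0 : ℝ} (hδ0 : 0 < δ0)
    (h0 : ∀ δ : ℝ, 0 < δ → δ ≤ δ0 → ∑' v, N v ^ (-(1 + δ)) ≤ Real.log (1 / δ) + C)
    (h2 : ∀ (i j : Fin n) (δ : ℝ), i ≠ j → 0 < δ → δ ≤ δ0 →
      |∑' v, (u i v * u j v) * N v ^ (-(1 + δ))| ≤ C)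
    (h4 : ∀ (i : Fin n) (δ : ℝ), 0 < δ → δ ≤ δ0 →
      κ * Real.log (1 / δ) - C ≤ |∑' v, (F v * u i v) * N v ^ (-(1 + δ))|) : False := by
  have hgap : 0 < n * κ ^ 2 - B ^ 2 := by linarith
  obtain ⟨K, hK⟩ : ∃ K : ℝ, K = (B ^ 2 + n * κ ^ 2) * C + 2 * κ * (n * C) +
      κ ^ 2 * ((Finset.univ : Finset (Fin n)).offDiag.card * |C|) := ⟨_, rfl⟩
  have key : ∀ δ : ℝ, 0 < δ → δ ≤ δ0 → (n * κ ^ 2 - B ^ 2) * Real.log (1 / δ) ≤ K := by
    intro δ hδ hδ'
    have hN0 : ∀ v, 0 < N v := fun v => lt_of_lt_of_le one_pos (hN v)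
    obtain ⟨p, hp⟩ : ∃ p : ι → ℝ, p = fun v => N v ^ (-(1 + δ)) := ⟨_, rfl⟩
    have hpv : ∀ v, N v ^ (-(1 + δ)) = p v := fun v => by rw [hp]
    have hp0 : ∀ v, 0 ≤ p v := fun v => by rw [← hpv]; exact Real.rpow_nonneg (hN0 v).le _
    have hps : Summable p := by
      rw [hp]
      exact hsum (1 + δ) (by linarith)
    have hti : ∀ i, Summable fun v => (F v * u i v) * p v := by
      intro i
      refine Summable.of_norm_bounded (hps.mul_left B) fun v => ?_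
      rw [Real.norm_eq_abs, abs_mul, abs_of_nonneg (hp0 v), abs_mul]
      have e1 : |F v| * |u i v| ≤ B * 1 :=
        mul_le_mul (hF v) (hu i v) (abs_nonneg _) ((abs_nonneg _).trans (hF v))
      have e2 := mul_le_mul_of_nonneg_right e1 (hp0 v)
      rwa [mul_one] at e2
    have htij : ∀ i j, Summable fun v => (u i v * u j v) * p v := by
      intro i j
      refine Summable.of_norm_bounded hps fun v => ?_
      rw [Real.norm_eq_abs, abs_mul, abs_mul, abs_of_nonneg (hp0 v)]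
      have e1 : |u i v| * |u j v| ≤ 1 := mul_le_one₀ (hu i v) (abs_nonneg _) (hu j v)
      have e2 := mul_le_mul_of_nonneg_right e1 (hp0 v)
      rwa [one_mul] at e2
    have g0 := h0 δ hδ hδ'
    have g2 := fun i j hij => h2 i j δ hij hδ hδ'
    have g4 := fun i => h4 i δ hδ hδ'
    simp only [hpv] at g0 g2 g4
    obtain ⟨s, hs⟩ : ∃ s : Fin n → ℝ, ∀ i, |s i| = 1 ∧
        s i * ∑' v, (F v * u i v) * p v = |∑' v, (F v * u i v) * p v| := by
      refine ⟨fun i => if 0 ≤ ∑' v, (F v * u i v) * p v then 1 else -1, fun i => ?_⟩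
      by_cases h : 0 ≤ ∑' v, (F v * u i v) * p v
      · simp only [if_pos h]
        exact ⟨abs_one, by rw [one_mul, abs_of_nonneg h]⟩
      · simp only [if_neg h]
        exact ⟨by rw [abs_neg, abs_one], by
          rw [abs_of_neg (not_le.1 h)]
          ring⟩
    have HR := ((hps.hasSum.mul_left (B ^ 2 + n * κ ^ 2)).sub
      ((hasSum_sum (s := (Finset.univ : Finset (Fin n)))
      fun i _ => (hti i).hasSum.mul_left (s i)).mul_left (2 * κ))).add
      ((hasSum_sum (s := (Finset.univ : Finset (Fin n)).offDiag)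
      fun x _ => (htij x.1 x.2).hasSum.mul_left (s x.1 * s x.2)).mul_left (κ ^ 2))
    have hle := hasSum_le (fun v => ?_) hasSum_zero HR
    · have c1 : n * (κ * Real.log (1 / δ) - C) ≤ ∑ i, s i * ∑' v, (F v * u i v) * p v := by
        have e1 : ∑ _i : Fin n, (κ * Real.log (1 / δ) - C) ≤
            ∑ i, s i * ∑' v, (F v * u i v) * p v :=
          Finset.sum_le_sum fun i _ => by
            rw [(hs i).2]
            exact g4 i
        simp only [Finset.sum_const, Finset.card_univ, Fintype.card_fin, nsmul_eq_mul] at e1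
        exact e1
      have c3 : ∑ x ∈ (Finset.univ : Finset (Fin n)).offDiag,
          (s x.1 * s x.2) * ∑' v, (u x.1 v * u x.2 v) * p v ≤
          (Finset.univ : Finset (Fin n)).offDiag.card * |C| := by
        have e1 : ∑ x ∈ (Finset.univ : Finset (Fin n)).offDiag,
            (s x.1 * s x.2) * ∑' v, (u x.1 v * u x.2 v) * p v ≤
          ∑ _x ∈ (Finset.univ : Finset (Fin n)).offDiag, |C| := by
          refine Finset.sum_le_sum fun x hx => ?_
          refine (le_abs_self _).trans ?_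
          rw [abs_mul, abs_mul, (hs x.1).1, (hs x.2).1, one_mul, one_mul]
          exact (g2 x.1 x.2 (Finset.mem_offDiag.1 hx).2.2).trans (le_abs_self C)
        rwa [Finset.sum_const, nsmul_eq_mul] at e1
      have d0 : 0 ≤ B ^ 2 + n * κ ^ 2 := by positivity
      have d1 := mul_le_mul_of_nonneg_left g0 d0
      have d2 := mul_le_mul_of_nonneg_left c1 (by positivity : (0 : ℝ) ≤ 2 * κ)
      have d3 := mul_le_mul_of_nonneg_left c3 (by positivity : (0 : ℝ) ≤ κ ^ 2)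
      have d4 : (n * κ ^ 2 - B ^ 2) * Real.log (1 / δ) =
          2 * κ * (n * (κ * Real.log (1 / δ) - C)) - (B ^ 2 + n * κ ^ 2) * (Real.log (1 / δ) + C)
          + ((B ^ 2 + n * κ ^ 2) * C + 2 * κ * (n * C)) := by ring
      rw [hK, d4]
      linarith
    · have e1 := sb_alg (κ := κ) (F v) (hF v) (fun i => u i v) s (fun i => hu i v)
        (fun i => (hs i).1)
      have e2 := mul_nonneg e1 (hp0 v)
      refine e2.trans (le_of_eq ?_)
      rw [add_mul, sub_mul, mul_assoc (2 * κ), mul_assoc (κ ^ 2), Finset.sum_mul, Finset.sum_mul]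
      congr 2
      · congr 1
        exact Finset.sum_congr rfl fun i _ => by ring
      · exact Finset.sum_congr rfl fun i _ => by ring
  obtain ⟨M, hM⟩ : ∃ M : ℝ, M = K / (n * κ ^ 2 - B ^ 2) := ⟨_, rfl⟩
  obtain ⟨δ, hδ⟩ : ∃ δ, δ = min δ0 (Real.exp (-(M + 1))) := ⟨_, rfl⟩
  have hδp : 0 < δ := by
    rw [hδ]
    exact lt_min hδ0 (Real.exp_pos _)
  have h5 := key δ hδp (by rw [hδ]; exact min_le_left _ _)
  have h6 : Real.log δ ≤ -(M + 1) := by
    rw [← Real.log_exp (-(M + 1))]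
    exact Real.log_le_log hδp (by rw [hδ]; exact min_le_right _ _)
  rw [one_div, Real.log_inv] at h5
  have h7 : -Real.log δ ≤ M := by
    rw [hM, le_div_iff₀ hgap]
    linarith
  linarith

private theorem sb_nrm {K : Type} [Field K] [NumberField K] (v : HeightOneSpectrum (𝓞 K)) :
    (1 : ℝ) ≤ (nrm v : ℝ) := by
  have h0 : nrm v ≠ 0 := by
    unfold nrm
    rw [Ne, Ideal.absNorm_eq_zero_iff]
    exact v.ne_bot
  exact_mod_cast Nat.one_le_iff_ne_zero.2 h0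

theorem sum_bessel {K : Type} [Field K] [NumberField K]
    {S : Finset (HeightOneSpectrum (𝓞 K))} {n : ℕ} {B κ : ℝ} (hκ : 0 < κ)
    (hn : B ^ 2 < n * κ ^ 2) (u : Fin n → HeightOneSpectrum (𝓞 K) → ℝ) (hu : ∀ i v, |u i v| ≤ 1)
    (F : HeightOneSpectrum (𝓞 K) → ℝ) (hF : ∀ v, |F v| ≤ B)
    (ho : ∀ i j, i ≠ j → SumO S (fun v => u i v * u j v) 0) (k : Fin n → ℝ)
    (hk : ∀ i, κ ≤ |k i|) (hFu : ∀ i, SumO S (fun v => F v * u i v) (k i)) : False := by
  obtain ⟨C0, hC0⟩ := psum_le (K := K) S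
  -- the constants of the scalar products
  have ho' : ∀ x : Fin n × Fin n, ∃ C δ0 : ℝ, 0 < δ0 ∧ (x.1 ≠ x.2 → ∀ δ : ℝ, 0 < δ → δ ≤ δ0 →
      |∑' v : Io S, (u x.1 v.1 * u x.2 v.1) * (nrm v.1 : ℝ) ^ (-(1 + δ))| ≤ C) := by
    intro x
    by_cases hx : x.1 = x.2
    · exact ⟨0, 1, one_pos, fun h => absurd hx h⟩
    · obtain ⟨C, δ0, h1, h2⟩ := ho x.1 x.2 hx
      refine ⟨C, δ0, h1, fun _ δ h3 h4 => ?_⟩
      have h5 := h2 δ h3 h4
      rwa [zero_mul, sub_zero] at h5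
  choose C1 d1 hd1 h1 using ho'
  choose C2 d2 hd2 h2 using hFu
  obtain ⟨C, hC⟩ : ∃ C : ℝ, C = |C0| + ∑ x, |C1 x| + ∑ i, |C2 i| := ⟨_, rfl⟩
  have hs1 : 0 ≤ ∑ x, |C1 x| := Finset.sum_nonneg fun x _ => abs_nonneg _
  have hs2 : 0 ≤ ∑ i, |C2 i| := Finset.sum_nonneg fun x _ => abs_nonneg _
  have hC0' : C0 ≤ C := by
    have := le_abs_self C0
    linarith
  have hC1 : ∀ x, C1 x ≤ C := by
    intro x
    have e1 : |C1 x| ≤ ∑ x, |C1 x| :=
      Finset.single_le_sum (f := fun x => |C1 x|) (fun x _ => abs_nonneg _) (Finset.mem_univ x)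
    have e2 := le_abs_self (C1 x)
    have e3 := abs_nonneg C0
    linarith
  have hC2 : ∀ i, C2 i ≤ C := by
    intro i
    have e1 : |C2 i| ≤ ∑ i, |C2 i| :=
      Finset.single_le_sum (f := fun i => |C2 i|) (fun x _ => abs_nonneg _) (Finset.mem_univ i)
    have e2 := le_abs_self (C2 i)
    have e3 := abs_nonneg C0
    linarith
  -- the bound for `δ`
  obtain ⟨e1, he1, he1'⟩ : ∃ e : ℝ, 0 < e ∧ ∀ x, e ≤ d1 x := by
    rcases isEmpty_or_nonempty (Fin n × Fin n) with h | h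
    · exact ⟨1, one_pos, fun x => (h.false x).elim⟩
    · refine ⟨Finset.univ.inf' Finset.univ_nonempty d1, ?_, fun x => Finset.inf'_le _ (Finset.mem_univ x)⟩
      rw [Finset.lt_inf'_iff]
      exact fun x _ => hd1 x
  obtain ⟨e2, he2, he2'⟩ : ∃ e : ℝ, 0 < e ∧ ∀ i, e ≤ d2 i := by
    rcases isEmpty_or_nonempty (Fin n) with h | h
    · exact ⟨1, one_pos, fun x => (h.false x).elim⟩
    · refine ⟨Finset.univ.inf' Finset.univ_nonempty d2, ?_, fun x => Finset.inf'_le _ (Finset.mem_univ x)⟩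
      rw [Finset.lt_inf'_iff]
      exact fun x _ => hd2 x
  refine sb_core (ι := Io S) (n := n) (fun v => (nrm v.1 : ℝ)) (B := B) (κ := κ) hκ hn ?_ ?_
    (fun i v => u i v.1) (fun i v => hu i v.1) (fun v => F v.1) (fun v => hF v.1) (C := C)
    (δ0 := min 1 (min e1 e2)) (lt_min one_pos (lt_min he1 he2)) ?_ ?_ ?_
  · intro v
    exact sb_nrm v.1
  · intro x hx
    exact (summable_nrm K hx).subtype _
  · intro δ hδ hδ'
    have := hC0 δ hδ (hδ'.trans (min_le_left _ _))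
    linarith
  · intro i j δ hij hδ hδ'
    exact (h1 (i, j) hij δ hδ ((hδ'.trans ((min_le_right _ _).trans (min_le_left _ _))).trans
      (he1' _))).trans (hC1 _)
  · intro i δ hδ hδ'
    have hδ1 : δ ≤ 1 := hδ'.trans (min_le_left _ _)
    have e3 := h2 i δ hδ ((hδ'.trans ((min_le_right _ _).trans (min_le_right _ _))).trans
      (he2' _))
    have hL : 0 ≤ Real.log (1 / δ) := Real.log_nonneg (by
      rw [le_div_iff₀ hδ]
      linarith)
    have e4 : κ * Real.log (1 / δ) ≤ |k i * Real.log (1 / δ)| := by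
      rw [abs_mul, abs_of_nonneg hL]
      exact mul_le_mul_of_nonneg_right (hk i) hL
    have e5 : |k i * Real.log (1 / δ)| ≤
        |∑' v : Io S, (F v.1 * u i v.1) * (nrm v.1 : ℝ) ^ (-(1 + δ))| +
        |∑' v : Io S, (F v.1 * u i v.1) * (nrm v.1 : ℝ) ^ (-(1 + δ)) - k i * Real.log (1 / δ)| := by
      have e6 := abs_sub (∑' v : Io S, (F v.1 * u i v.1) * (nrm v.1 : ℝ) ^ (-(1 + δ)))
        (∑' v : Io S, (F v.1 * u i v.1) * (nrm v.1 : ℝ) ^ (-(1 + δ)) - k i * Real.log (1 / δ))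
      rwa [sub_sub_cancel] at e6
    have e7 := hC2 i
    linarith

end Pool.Agent.THF
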