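import Pool.Agent.THF.O.ZL
import Pool.Agent.QD.N4Main

/-!
# THF/O-Zth: sums of quadratic characters twisted by `cos (θ log N_v)`

PLAN.  `th_bd` generalises `csum_bd` (LD/E/Zeta.lean), same proof with `w = 1 + δ + iθ`.  `x` no square: `L = (qf hx).L`: `ZP L w = ∏' v, zf (nrm v) (tt x v) w` (`ZP_quad`, QD/N4Main), `∏' v, (1 - t_v N_v^(-w))⁻¹ = ZP L w / ZP K w = Z_L w / Z_K w`; both are continuous and nonzero on the compact set
`{1 + δ + iθ : 0 ≤ δ ≤ 1}` (`zeta_fe`, QD/N1Main: `Z_F`; `Z_ne_line`), so `|log ‖∏'‖| ≤ C`; `log ‖∏' v, (1 - t_v N_v^(-w))⁻¹‖ = ∑ t_v Re N_v^(-w) + O(∑ N_v^(-2))`, `Re N_v^(-(1+δ+iθ)) = N_v^(-(1+δ)) cos (θ log N_v)`.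
`x` a square, `θ ≠ 0`: `uK v x = 1` outside `S` up to the places in `2` (`tt_uK`), `ZP K w = Z_K w / (w - 1)`, `w - 1 = δ + iθ ≠ 0`.
`ort_bd`: `cos α cos β = (cos (α+β) + cos (α-β))/2`, `uK v x * uK v y = uK v (x * y)` outside a finite set (see `cmul_bd`).
-/

namespace Pool.Agent.THF

open NumberField IsDedekindDomain Pool.Agent.HWR Pool.Agent.QD Pool.Agent.QD.In Pool.Agent.LD
  Pool.Agent.MD

variable {K : Type} [Field K] [NumberField K] {S : Finset (HeightOneSpectrum (𝓞 K))}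

private theorem two_le (v : HeightOneSpectrum (𝓞 K)) : (2 : ℝ) ≤ nrm v := by
  have h0 := nrm_ne_zero v
  have h1 := nrm_ne_one v
  have : 2 ≤ nrm v := by omega
  exact_mod_cast this

private theorem y_pos (σ : ℝ) (v : HeightOneSpectrum (𝓞 K)) : 0 < (nrm v : ℝ) ^ (-σ) :=
  Real.rpow_pos_of_pos (by linarith [two_le v]) _

private theorem y_half {σ : ℝ} (hσ : 1 < σ) (v : HeightOneSpectrum (𝓞 K)) :
    (nrm v : ℝ) ^ (-σ) ≤ 1 / 2 := by
  have h2 := two_le v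
  calc (nrm v : ℝ) ^ (-σ) ≤ (nrm v : ℝ) ^ (-1 : ℝ) :=
        Real.rpow_le_rpow_of_exponent_le (by linarith) (by linarith)
    _ = (nrm v : ℝ)⁻¹ := Real.rpow_neg_one _
    _ ≤ 1 / 2 := by
        rw [one_div]
        exact inv_anti₀ (by norm_num) h2

private theorem y_sq {σ : ℝ} (hσ : 1 < σ) (v : HeightOneSpectrum (𝓞 K)) :
    ((nrm v : ℝ) ^ (-σ)) ^ 2 ≤ (nrm v : ℝ) ^ (-(2 : ℝ)) := by
  have h2 := two_le v
  rw [← Real.rpow_natCast, ← Real.rpow_mul (by linarith)]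
  refine Real.rpow_le_rpow_of_exponent_le (by linarith) ?_
  push_cast
  linarith

private theorem t_abs {t : ℤ} (ht : t = 1 ∨ t = -1 ∨ t = 0) : |(t : ℝ)| ≤ 1 := by
  rcases ht with h | h | h <;> rw [h] <;> norm_num

private theorem zth_log {z : ℂ} (hz : ‖z‖ ≤ 1 / 2) : ‖-Complex.log (1 - z) - z‖ ≤ ‖z‖ ^ 2 := by
  have h1 := Complex.norm_log_one_add_sub_self_le (z := -z) (by rw [norm_neg]; linarith)
  rw [norm_neg] at h1
  have h2 : -Complex.log (1 - z) - z = -(Complex.log (1 + -z) - -z) := by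
    rw [← sub_eq_add_neg]
    ring
  rw [h2, norm_neg]
  refine h1.trans ?_
  have h3 : (1 - ‖z‖)⁻¹ ≤ 2 := by
    rw [inv_le_comm₀ (by linarith) (by norm_num)]
    linarith
  have h4 := mul_le_mul_of_nonneg_left h3 (sq_nonneg ‖z‖)
  linarith

/-- the point `σ + i θ` -/
private noncomputable def pt (σ θ : ℝ) : ℂ := (σ : ℂ) + (θ : ℂ) * Complex.I

private theorem pt_re (σ θ : ℝ) : (pt σ θ).re = σ := by
  simp [pt]

private theorem pt_im (σ θ : ℝ) : (pt σ θ).im = θ := by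
  simp [pt]

private theorem nrm_pos' (v : HeightOneSpectrum (𝓞 K)) : 0 < nrm v :=
  Nat.pos_of_ne_zero (nrm_ne_zero v)

private theorem cp_norm (σ θ : ℝ) (v : HeightOneSpectrum (𝓞 K)) :
    ‖(nrm v : ℂ) ^ (-pt σ θ)‖ = (nrm v : ℝ) ^ (-σ) := by
  rw [Complex.norm_natCast_cpow_of_pos (nrm_pos' v), Complex.neg_re, pt_re]

private theorem cp_re (σ θ : ℝ) (v : HeightOneSpectrum (𝓞 K)) :
    ((nrm v : ℂ) ^ (-pt σ θ)).re = Real.cos (θ * Real.log (nrm v)) * (nrm v : ℝ) ^ (-σ) := by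
  have hN : (0 : ℝ) < nrm v := by linarith [two_le v]
  have hne : (nrm v : ℂ) ≠ 0 := by
    exact_mod_cast (nrm_ne_zero v)
  have hl : Complex.log (nrm v : ℂ) = ((Real.log (nrm v) : ℝ) : ℂ) := by
    rw [Complex.ofReal_log hN.le]
    push_cast
    rfl
  rw [Complex.cpow_def_of_ne_zero hne, hl, Complex.exp_re, Complex.re_ofReal_mul,
    Complex.im_ofReal_mul, Complex.neg_re, Complex.neg_im, pt_re, pt_im, Real.rpow_def_of_pos hN]
  rw [show Real.log (nrm v : ℝ) * -θ = -(θ * Real.log (nrm v : ℝ)) by ring, Real.cos_neg]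
  ring

section T

variable (t : HeightOneSpectrum (𝓞 K) → ℤ) (ht : ∀ v, t v = 1 ∨ t v = -1 ∨ t v = 0)

private noncomputable def zz (w : ℂ) (v : HeightOneSpectrum (𝓞 K)) : ℂ :=
  (t v : ℂ) * (nrm v : ℂ) ^ (-w)

private noncomputable def gg (w : ℂ) (v : HeightOneSpectrum (𝓞 K)) : ℂ :=
  -Complex.log (1 - zz t w v)

private noncomputable def cc (σ θ : ℝ) (v : HeightOneSpectrum (𝓞 K)) : ℝ :=
  ((t v : ℝ) * Real.cos (θ * Real.log (nrm v))) * (nrm v : ℝ) ^ (-σ)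

private noncomputable def BB (K : Type) [Field K] [NumberField K] : ℝ :=
  ∑' v : HeightOneSpectrum (𝓞 K), (nrm v : ℝ) ^ (-(2 : ℝ))

private theorem BB_sum : Summable fun v : HeightOneSpectrum (𝓞 K) =>
    (nrm v : ℝ) ^ (-(2 : ℝ)) :=
  summable_nrm K (x := 2) (by norm_num)

include ht

private theorem zz_norm (σ θ : ℝ) (v : HeightOneSpectrum (𝓞 K)) :
    ‖zz t (pt σ θ) v‖ ≤ (nrm v : ℝ) ^ (-σ) := by
  unfold zz
  rw [norm_mul, cp_norm, Complex.norm_intCast]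
  exact mul_le_of_le_one_left (y_pos σ v).le (t_abs (ht v))

omit ht in
private theorem zz_re (σ θ : ℝ) (v : HeightOneSpectrum (𝓞 K)) :
    (zz t (pt σ θ) v).re = cc t σ θ v := by
  unfold zz cc
  have h1 : ((t v : ℤ) : ℂ) = (((t v : ℤ) : ℝ) : ℂ) := by push_cast; rfl
  rw [h1, Complex.re_ofReal_mul, cp_re]
  ring

private theorem cc_abs (σ θ : ℝ) (v : HeightOneSpectrum (𝓞 K)) :
    |cc t σ θ v| ≤ (nrm v : ℝ) ^ (-σ) := by
  rw [← zz_re]
  exact (Complex.abs_re_le_norm _).trans (zz_norm t ht σ θ v)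

private theorem cc_sum {σ : ℝ} (hσ : 1 < σ) (θ : ℝ) : Summable (cc t σ θ) := by
  refine Summable.of_norm_bounded (summable_nrm K hσ) fun v => ?_
  rw [Real.norm_eq_abs]
  exact cc_abs t ht σ θ v

private theorem zz_sum {σ : ℝ} (hσ : 1 < σ) (θ : ℝ) : Summable (zz t (pt σ θ)) :=
  Summable.of_norm_bounded (summable_nrm K hσ) fun v => zz_norm t ht σ θ v

private theorem gg_bd {σ : ℝ} (hσ : 1 < σ) (θ : ℝ) (v : HeightOneSpectrum (𝓞 K)) :
    ‖gg t (pt σ θ) v - zz t (pt σ θ) v‖ ≤ (nrm v : ℝ) ^ (-(2 : ℝ)) := by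
  have h1 := zz_norm t ht σ θ v
  refine (zth_log (h1.trans (y_half hσ v))).trans ?_
  exact (pow_le_pow_left₀ (norm_nonneg _) h1 2).trans (y_sq hσ v)

private theorem gg_sum {σ : ℝ} (hσ : 1 < σ) (θ : ℝ) : Summable (gg t (pt σ θ)) := by
  have h1 : Summable fun v => gg t (pt σ θ) v - zz t (pt σ θ) v :=
    Summable.of_norm_bounded BB_sum fun v => gg_bd t ht hσ θ v
  refine (h1.add (zz_sum t ht hσ θ)).congr fun v => ?_
  rw [sub_add_cancel]

private theorem gg_tsum {σ : ℝ} (hσ : 1 < σ) (θ : ℝ) :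
    |(∑' v, gg t (pt σ θ) v).re - ∑' v, cc t σ θ v| ≤ BB K := by
  have h1 : ∑' v, cc t σ θ v = (∑' v, zz t (pt σ θ) v).re := by
    rw [Complex.re_tsum (zz_sum t ht hσ θ)]
    exact tsum_congr fun v => (zz_re t σ θ v).symm
  rw [h1, ← Complex.sub_re, ← (gg_sum t ht hσ θ).tsum_sub (zz_sum t ht hσ θ)]
  refine (Complex.abs_re_le_norm _).trans ?_
  have h2 : Summable fun v => ‖gg t (pt σ θ) v - zz t (pt σ θ) v‖ :=
    Summable.of_nonneg_of_le (fun _ => norm_nonneg _) (gg_bd t ht hσ θ) BB_sum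
  exact (norm_tsum_le_tsum_norm h2).trans (h2.tsum_le_tsum (gg_bd t ht hσ θ) BB_sum)

private theorem gg_prod {σ : ℝ} (hσ : 1 < σ) (θ : ℝ) :
    HasProd (fun v : HeightOneSpectrum (𝓞 K) =>
      (1 - (t v : ℂ) * (nrm v : ℂ) ^ (-pt σ θ))⁻¹)
      (Complex.exp (∑' v, gg t (pt σ θ) v)) := by
  refine (gg_sum t ht hσ θ).hasSum.cexp.congr_fun ?_
  intro v
  show _ = Complex.exp (gg t (pt σ θ) v)
  have h3 : 1 - zz t (pt σ θ) v ≠ 0 := by
    intro h0
    have h1 := (zz_norm t ht σ θ v).trans (y_half hσ v)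
    have h2 : zz t (pt σ θ) v = 1 := (sub_eq_zero.1 h0).symm
    rw [h2, norm_one] at h1
    norm_num at h1
  unfold gg
  rw [Complex.exp_neg, Complex.exp_log h3]
  rfl

end T

private theorem ZP_exp (K : Type) [Field K] [NumberField K] {σ : ℝ} (hσ : 1 < σ) (θ : ℝ) :
    ZP K (pt σ θ) = Complex.exp (∑' v, gg (K := K) (fun _ => 1) (pt σ θ) v) := by
  have h1 := (gg_prod (K := K) (fun _ => 1) (fun _ => Or.inl rfl) hσ θ).tprod_eq
  rw [← h1]
  unfold ZP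
  refine tprod_congr fun v => ?_
  rw [Int.cast_one, one_mul]

private theorem zf_exp (t : HeightOneSpectrum (𝓞 K) → ℤ) (ht : ∀ v, t v = 1 ∨ t v = -1 ∨ t v = 0)
    {σ : ℝ} (hσ : 1 < σ) (θ : ℝ) :
    ∏' v : HeightOneSpectrum (𝓞 K), zf (nrm v) (t v) (pt σ θ) =
      Complex.exp ((∑' v, gg (K := K) (fun _ => 1) (pt σ θ) v) + ∑' v, gg t (pt σ θ) v) := by
  have h1 := ((gg_prod (K := K) (fun _ => 1) (fun _ => Or.inl rfl) hσ θ).mul
    (gg_prod t ht hσ θ)).tprod_eq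
  rw [Complex.exp_add, ← h1]
  refine tprod_congr fun v => ?_
  unfold zf
  rw [Int.cast_one, one_mul]

/-- a continuous function without zeros on `[0, 1]` -/
private theorem cpt (g : ℝ → ℂ) (hg : Continuous g) (h0 : ∀ δ ∈ Set.Icc (0 : ℝ) 1, g δ ≠ 0) :
    ∃ C : ℝ, ∀ δ : ℝ, 0 < δ → δ ≤ 1 → |Real.log ‖g δ‖| ≤ C := by
  have hlc : ContinuousOn (fun δ => Real.log ‖g δ‖) (Set.Icc 0 1) :=
    hg.norm.continuousOn.log fun δ hδ => norm_ne_zero_iff.2 (h0 δ hδ)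
  obtain ⟨C, hC⟩ := (isCompact_Icc.image_of_continuousOn hlc).isBounded.exists_norm_le
  refine ⟨C, fun δ hδ hδ1 => ?_⟩
  have h5 := hC _ ⟨δ, ⟨hδ.le, hδ1⟩, rfl⟩
  rwa [Real.norm_eq_abs] at h5

private theorem pt_cont (θ : ℝ) : Continuous fun δ : ℝ => pt (1 + δ) θ := by
  unfold pt
  exact (Complex.continuous_ofReal.comp (continuous_const.add continuous_id)).add continuous_const

/-- the zeta function near the line `Re w = 1` -/
private theorem ZP_log (F : Type) [Field F] [NumberField F] (θ : ℝ) :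
    ∃ C : ℝ, ∀ δ : ℝ, 0 < δ → δ ≤ 1 →
      |Real.log ‖ZP F (pt (1 + δ) θ)‖ + Real.log ‖pt (1 + δ) θ - 1‖| ≤ C := by
  obtain ⟨Z, h1, -, h3, h4, -⟩ := zeta_fe F
  obtain ⟨C, hC⟩ := cpt (fun δ => Z (pt (1 + δ) θ)) (h1.continuous.comp (pt_cont θ))
    (fun δ hδ => Z_ne_line F h1 h3 h4 (by rw [pt_re]; linarith [hδ.1]))
  refine ⟨C, fun δ hδ hδ1 => ?_⟩
  have hσ : 1 < 1 + δ := by linarith
  have h5 := hC δ hδ hδ1
  have hne : pt (1 + δ) θ - 1 ≠ 0 := by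
    intro h0
    have h6 := congrArg Complex.re h0
    rw [Complex.sub_re, pt_re, Complex.one_re, Complex.zero_re] at h6
    linarith
  have hZ : ZP F (pt (1 + δ) θ) ≠ 0 := by
    rw [ZP_exp F hσ θ]
    exact Complex.exp_ne_zero _
  have h6 : Z (pt (1 + δ) θ) = (pt (1 + δ) θ - 1) * ZP F (pt (1 + δ) θ) :=
    h4 _ (by rw [pt_re]; exact hσ)
  have h7 : Real.log ‖Z (pt (1 + δ) θ)‖ =
      Real.log ‖ZP F (pt (1 + δ) θ)‖ + Real.log ‖pt (1 + δ) θ - 1‖ := by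
    rw [h6, norm_mul, Real.log_mul (norm_ne_zero_iff.2 hne) (norm_ne_zero_iff.2 hZ)]
    ring
  rw [← h7]
  exact h5

/-- two families which agree outside a finite set -/
private theorem swap {t t' : HeightOneSpectrum (𝓞 K) → ℤ}
    (ht : ∀ v, t v = 1 ∨ t v = -1 ∨ t v = 0) (ht' : ∀ v, t' v = 1 ∨ t' v = -1 ∨ t' v = 0)
    (F : Finset (HeightOneSpectrum (𝓞 K))) (h : ∀ v, v ∉ F → t' v = t v) {σ : ℝ} (hσ : 1 < σ)
    (θ : ℝ) : |(∑' v, cc t' σ θ v) - ∑' v, cc t σ θ v| ≤ F.card := by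
  rw [← (cc_sum t' ht' hσ θ).tsum_sub (cc_sum t ht hσ θ), tsum_eq_sum (s := F) fun v hv => by
    unfold cc
    rw [h v hv, sub_self]]
  refine (Finset.abs_sum_le_sum_abs _ _).trans ?_
  have h1 : ∀ v ∈ F, |cc t' σ θ v - cc t σ θ v| ≤ 1 := by
    intro v _
    have h2 := (cc_abs t ht σ θ v).trans (y_half hσ v)
    have h3 := (cc_abs t' ht' σ θ v).trans (y_half hσ v)
    refine (abs_sub _ _).trans ?_
    linarith
  refine (Finset.sum_le_sum h1).trans ?_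
  rw [Finset.sum_const, nsmul_eq_mul, mul_one]

private theorem log_exp_norm (z : ℂ) : Real.log ‖Complex.exp z‖ = z.re := by
  rw [Complex.norm_exp, Real.log_exp]

private theorem gen (z : Kˣ) (θ : ℝ) (hz : ¬ IsSquare z ∨ θ ≠ 0)
    (F : Finset (HeightOneSpectrum (𝓞 K)))
    (t' : HeightOneSpectrum (𝓞 K) → ℤ) (ht' : ∀ v, t' v = 1 ∨ t' v = -1 ∨ t' v = 0)
    (h : ∀ v, v ∉ F → t' v = tt z v) : ∃ C : ℝ, ∀ δ : ℝ, 0 < δ → δ ≤ 1 →
      |∑' v, cc t' (1 + δ) θ v| ≤ C := by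
  obtain ⟨C, hC⟩ := ZP_log K θ
  by_cases hs : IsSquare z
  · have hθ : θ ≠ 0 := hz.resolve_left fun h0 => h0 hs
    obtain ⟨C', hC'⟩ := cpt (fun δ => pt (1 + δ) θ - 1) ((pt_cont θ).sub continuous_const)
      (fun δ _ h0 => hθ (by
        have h6 := congrArg Complex.im h0
        rw [Complex.sub_im, pt_im, Complex.one_im, Complex.zero_im, sub_zero] at h6
        exact h6))
    refine ⟨C + C' + BB K + F.card, fun δ hδ hδ1 => ?_⟩
    have hσ : 1 < 1 + δ := by linarith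
    have h1 := hC δ hδ hδ1
    rw [ZP_exp K hσ, log_exp_norm] at h1
    have h2 := hC' δ hδ hδ1
    have e : tt z = fun _ => 1 := by
      funext v
      exact dif_pos hs
    have h4 := gg_tsum (K := K) (fun _ => 1) (fun _ => Or.inl rfl) hσ θ
    have h5 := swap (tt_cases z) ht' F h hσ θ
    rw [e] at h5
    rw [abs_le] at h1 h2 h4 h5 ⊢
    constructor <;> linarith [h1.1, h1.2, h2.1, h2.2, h4.1, h4.2, h5.1, h5.2]
  · obtain ⟨C', hC'⟩ := ZP_log (qf hs).L θ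
    refine ⟨C + C' + BB K + F.card, fun δ hδ hδ1 => ?_⟩
    have hσ : 1 < 1 + δ := by linarith
    have h1 := hC δ hδ hδ1
    rw [ZP_exp K hσ, log_exp_norm] at h1
    have h2 := hC' δ hδ hδ1
    have e : ∀ v : HeightOneSpectrum (𝓞 K), tt z v = ty K (qf hs).L v := fun v => dif_neg hs
    have h3 := zf_exp (tt z) (tt_cases z) hσ θ
    rw [ZP_quad (qf hs).L (qf hs).deg (w := pt (1 + δ) θ) (by rw [pt_re]; exact hσ)] at h2
    simp only [e] at h3
    rw [h3, log_exp_norm, Complex.add_re] at h2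
    have h4 := gg_tsum (tt z) (tt_cases z) hσ θ
    have h5 := swap (tt_cases z) ht' F h hσ θ
    rw [abs_le] at h1 h2 h4 h5 ⊢
    constructor <;> linarith [h1.1, h1.2, h2.1, h2.2, h4.1, h4.2, h5.1, h5.2]

private theorem sub_eq (f : HeightOneSpectrum (𝓞 K) → ℝ) (σ : ℝ)
    (f' : HeightOneSpectrum (𝓞 K) → ℝ) (h1 : ∀ v, v ∈ S → f' v = 0)
    (h2 : ∀ v, v ∉ S → f' v = f v * (nrm v : ℝ) ^ (-σ)) :
    ∑' v : Io S, f v.1 * (nrm v.1 : ℝ) ^ (-σ) = ∑' v : HeightOneSpectrum (𝓞 K), f' v := by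
  have h3 := tsum_subtype {v : HeightOneSpectrum (𝓞 K) | v ∉ S}
    (fun v => f v * (nrm v : ℝ) ^ (-σ))
  refine h3.trans (tsum_congr fun v => ?_)
  by_cases hv : v ∈ S
  · rw [Set.indicator_of_notMem (show v ∉ {v : HeightOneSpectrum (𝓞 K) | v ∉ S} from
      fun h => h hv), h1 v hv]
  · rw [Set.indicator_of_mem (show v ∈ {v : HeightOneSpectrum (𝓞 K) | v ∉ S} from hv), h2 v hv]

theorem th_bd (h2 : ∀ v : HeightOneSpectrum (𝓞 K), (2 : 𝓞 K) ∈ v.asIdeal → v ∈ S) (x : Kˣ)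
    (θ : ℝ) (hx : ¬ IsSquare x ∨ θ ≠ 0) :
    SumO S (fun v => (uK v x : ℝ) * Real.cos (θ * Real.log (nrm v))) 0 := by
  classical
  obtain ⟨C, hC⟩ := gen x θ hx S (fun v => if v ∈ S then 0 else uK v x)
    (fun v => by
      by_cases hv : v ∈ S
      · rw [if_pos hv]
        exact Or.inr (Or.inr rfl)
      · rw [if_neg hv]
        rcases uK_cases v x with h | h | h
        · exact Or.inr (Or.inr h)
        · exact Or.inl h
        · exact Or.inr (Or.inl h))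
    (fun v hv => by
      rw [if_neg hv]
      exact (tt_uK x v fun h => hv (h2 v h)).symm)
  refine ⟨C, 1, one_pos, fun δ hδ hδ1 => ?_⟩
  rw [zero_mul, sub_zero, sub_eq (S := S)
    (fun v => (uK v x : ℝ) * Real.cos (θ * Real.log (nrm v))) (1 + δ)
    (cc (fun v => if v ∈ S then 0 else uK v x) (1 + δ) θ)
    (fun v hv => by
      unfold cc
      beta_reduce
      rw [if_pos hv, Int.cast_zero, zero_mul, zero_mul])
    (fun v hv => by
      unfold cc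
      beta_reduce
      rw [if_neg hv])]
  exact hC δ hδ hδ1

theorem ort_bd (h2 : ∀ v : HeightOneSpectrum (𝓞 K), (2 : 𝓞 K) ∈ v.asIdeal → v ∈ S) (x y : Kˣ)
    (hxy : ¬ IsSquare (x * y)) (θ θ' : ℝ) :
    SumO S (fun v => ((uK v x : ℝ) * Real.cos (θ * Real.log (nrm v))) *
      ((uK v y : ℝ) * Real.cos (θ' * Real.log (nrm v)))) 0 := by
  classical
  have hcase : ∀ v, uK v x * uK v y = 1 ∨ uK v x * uK v y = -1 ∨ uK v x * uK v y = 0 := by
    intro v
    rcases uK_cases v x with h | h | h <;> rcases uK_cases v y with h' | h' | h' <;>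
      rw [h, h'] <;> norm_num
  obtain ⟨t', ht'⟩ : ∃ t' : HeightOneSpectrum (𝓞 K) → ℤ,
      t' = fun v => if v ∈ S then 0 else uK v x * uK v y := ⟨_, rfl⟩
  have hc' : ∀ v, t' v = 1 ∨ t' v = -1 ∨ t' v = 0 := by
    intro v
    rw [ht']
    show (if v ∈ S then (0 : ℤ) else uK v x * uK v y) = 1 ∨
      (if v ∈ S then (0 : ℤ) else uK v x * uK v y) = -1 ∨
      (if v ∈ S then (0 : ℤ) else uK v x * uK v y) = 0
    by_cases hv : v ∈ S
    · rw [if_pos hv]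
      exact Or.inr (Or.inr rfl)
    · rw [if_neg hv]
      exact hcase v
  have hF : ∀ v, v ∉ S ∪ (Pool.Agent.QD.ordK_finite x).toFinset → t' v = tt (x * y) v := by
    intro v hv
    rw [Finset.mem_union, not_or, Set.Finite.mem_toFinset] at hv
    obtain ⟨hvS, hvx⟩ := hv
    have hvx' : ordK v x = 0 := by
      by_contra h
      exact hvx h
    have h2v : (2 : 𝓞 K) ∉ v.asIdeal := fun h => hvS (h2 v h)
    rw [ht']
    show (if v ∈ S then (0 : ℤ) else uK v x * uK v y) = tt (x * y) v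
    rw [if_neg hvS, tt_uK (x * y) v h2v]
    have hex : Even (ordK v x) := by
      rw [hvx']
      exact Even.zero
    by_cases hy : Even (ordK v y)
    · exact (N2.uK_mul h2v x y hex hy).symm
    · have hyo : Odd (ordK v y) := Int.not_even_iff_odd.1 hy
      have h5 : uK v y = 0 := uK_eq_zero_iff.2 hyo
      have h6 : uK v (x * y) = 0 := by
        refine uK_eq_zero_iff.2 ?_
        rw [ordK_mul, hvx', zero_add]
        exact hyo
      rw [h5, h6, mul_zero]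
  obtain ⟨C, hC⟩ := gen (x * y) (θ + θ') (Or.inl hxy) _ t' hc' hF
  obtain ⟨C', hC'⟩ := gen (x * y) (θ - θ') (Or.inl hxy) _ t' hc' hF
  refine ⟨C + C', 1, one_pos, fun δ hδ hδ1 => ?_⟩
  have hσ : 1 < 1 + δ := by linarith
  have hsum : ∀ v, v ∉ S → (cc t' (1 + δ) (θ + θ') v + cc t' (1 + δ) (θ - θ') v) / 2 =
      (((uK v x : ℝ) * Real.cos (θ * Real.log (nrm v))) *
        ((uK v y : ℝ) * Real.cos (θ' * Real.log (nrm v)))) * (nrm v : ℝ) ^ (-(1 + δ)) := by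
    intro v hv
    have h3 : (t' v : ℝ) = (uK v x : ℝ) * (uK v y : ℝ) := by
      rw [ht']
      show (((if v ∈ S then (0 : ℤ) else uK v x * uK v y) : ℤ) : ℝ) = _
      rw [if_neg hv, Int.cast_mul]
    unfold cc
    rw [h3, add_mul, sub_mul, Real.cos_add, Real.cos_sub]
    ring
  have hzero : ∀ v, v ∈ S → (cc t' (1 + δ) (θ + θ') v + cc t' (1 + δ) (θ - θ') v) / 2 = 0 := by
    intro v hv
    have h3 : (t' v : ℝ) = 0 := by
      rw [ht']
      show (((if v ∈ S then (0 : ℤ) else uK v x * uK v y) : ℤ) : ℝ) = _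
      rw [if_pos hv, Int.cast_zero]
    unfold cc
    rw [h3]
    ring
  rw [zero_mul, sub_zero, sub_eq (S := S) _ (1 + δ)
    (fun v => (cc t' (1 + δ) (θ + θ') v + cc t' (1 + δ) (θ - θ') v) / 2) hzero hsum,
    tsum_div_const, (cc_sum t' hc' hσ _).tsum_add (cc_sum t' hc' hσ _)]
  have h6 := hC δ hδ hδ1
  have h7 := hC' δ hδ hδ1
  rw [abs_le] at h6 h7 ⊢
  constructor <;> linarith [h6.1, h6.2, h7.1, h7.2]

end Pool.Agent.THF
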