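import Pool.Agent.THF.O.Defs
import Pool.Agent.THF.K.Iso
import Pool.Agent.QD.F.Ord
import Pool.Agent.H73.AL.Final

/-!
# THF/O-Mer0: orders of `f`, `g` and the growth of the completed function

PLAN.  `g s * RF s ^ N = f s` for `Re s > 3/2`, so for `Re s > 1` (both sides differentiable on the half plane; identity theorem, see `ord_right`, QD/F/Ord).  `g` is not identically zero (`hgne`), `f` neither (`Lam_ne`, H73/AL/Final, `RF = Lam` on `Re s > 3/2`, `RF_spec`): the orders are finite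
(`AnalyticOnNhd.eqOn_zero_of_preconnected_of_eventuallyEq_zero`, see QD/F/Quot).  `logO_of` (MD/S/OrdL) for `f`, `g`; `LogO.of_mul`, `LogO.congr` (points `z + δ` have real part `> 1`), `logO_of_pow`.
`ord_near`: zeros of `f g` are isolated: for `z ≠ z0` near `z0` with `Re z = 1` both orders are `0`, so `LogO (RF) z 0`.
`ord_int`: for `Re z > 1` `RF` is analytic at `z` and not locally zero: `logO_of`.
-/

namespace Pool.Agent.THF

open NumberField IsDedekindDomain Pool.Agent.HWR Pool.Agent.QD Pool.Agent.QD.In Pool.Agent.LD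
  Pool.Agent.MD

variable {T : Finset ℕ} (D : LocData T) {a : ℕ → ℝ} {F : Type} [Field F] [NumberField F]

private theorem mer0_half_open : IsOpen {s : ℂ | 1 < s.re} :=
  isOpen_lt continuous_const Complex.continuous_re

private theorem mer0_fin {f : ℂ → ℂ} (hf : Differentiable ℂ f) {s0 : ℂ} (h0 : f s0 ≠ 0) (z : ℂ) :
    ∃ m : ℕ, analyticOrderAt f z = m := by
  have hfin : analyticOrderAt f z ≠ ⊤ := by
    intro htop
    rw [analyticOrderAt_eq_top] at htop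
    have h1 : AnalyticOnNhd ℂ f Set.univ := fun w _ => hf.analyticAt w
    have h2 := h1.eqOn_zero_of_preconnected_of_eventuallyEq_zero isPreconnected_univ
      (Set.mem_univ z) htop
    exact h0 (h2 (Set.mem_univ s0))
  obtain ⟨n, hn⟩ := ENat.ne_top_iff_exists.1 hfin
  exact ⟨n, hn.symm⟩

private theorem mer0_near {f : ℂ → ℂ} (hf : Differentiable ℂ f) {s0 : ℂ} (h0 : f s0 ≠ 0) (z : ℂ) :
    ∀ᶠ w in nhdsWithin z {z}ᶜ, f w ≠ 0 := by
  rcases (hf.analyticAt z).eventually_eq_zero_or_eventually_ne_zero with h | h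
  · exfalso
    have h1 : AnalyticOnNhd ℂ f Set.univ := fun w _ => hf.analyticAt w
    have h2 := h1.eqOn_zero_of_preconnected_of_eventuallyEq_zero isPreconnected_univ
      (Set.mem_univ z) h
    exact h0 (h2 (Set.mem_univ s0))
  · exact h

theorem RF_ne (hTp : ∀ p ∈ T, p.Prime) (hT : ∀ p : ℕ, p.Prime → p < 101 → p ∈ T)
    (ha : ∀ q : ℕ, |a q| ≤ 2 * Real.sqrt q) (hR : RH D a F) {s : ℂ} (hs : 3 / 2 < s.re) :
    RF D a F s ≠ 0 := by
  rw [(RF_spec D a hR).2 s hs]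
  exact Pool.Agent.H73.AL.Lam_ne D hTp hT ha F hs

private theorem mer0_two : (3 / 2 : ℝ) < (2 : ℂ).re := by
  rw [Complex.re_ofNat]
  norm_num

theorem mer_ord (hTp : ∀ p ∈ T, p.Prime) (hT : ∀ p : ℕ, p.Prime → p < 101 → p ∈ T)
    (ha : ∀ q : ℕ, |a q| ≤ 2 * Real.sqrt q) (hR : RH D a F) {N : ℕ} (hN : 0 < N) {f g : ℂ → ℂ}
    (hf : Differentiable ℂ f) (hg : Differentiable ℂ g) (hgne : ∀ s : ℂ, 3 / 2 < s.re → g s ≠ 0)
    (hfg : ∀ s : ℂ, 3 / 2 < s.re → g s * D.Lam a F s ^ N = f s) :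
    (∀ s : ℂ, 1 < s.re → g s * RF D a F s ^ N = f s) ∧ ∀ z : ℂ, ∃ m n : ℕ,
      analyticOrderAt f z = m ∧ analyticOrderAt g z = n ∧
        (1 ≤ z.re → LogO (RF D a F) z (((m : ℝ) - n) / N)) := by
  obtain ⟨hd, he⟩ := RF_spec D a hR
  have h1 : DifferentiableOn ℂ (fun s => RF D a F s ^ N) {s : ℂ | 1 < s.re} := hd.pow N
  have h2 : ∀ s : ℂ, 3 / 2 < s.re → f s = g s * (fun s => RF D a F s ^ N) s := by
    intro s hs
    show f s = g s * RF D a F s ^ N
    rw [he s hs, hfg s hs]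
  have h3 : ∀ s : ℂ, 1 < s.re → f s = g s * RF D a F s ^ N := (ord_right hf hg h1 h2).1
  refine ⟨fun s hs => (h3 s hs).symm, fun z => ?_⟩
  have hf2 : f 2 ≠ 0 := by
    have h4 := h2 2 mer0_two
    rw [h4]
    exact mul_ne_zero (hgne 2 mer0_two) (pow_ne_zero N (RF_ne D hTp hT ha hR mer0_two))
  obtain ⟨m, hm⟩ := mer0_fin hf hf2 z
  obtain ⟨n, hn⟩ := mer0_fin hg (hgne 2 mer0_two) z
  refine ⟨m, n, hm, hn, fun hz => ?_⟩
  have h5 : LogO f z m := logO_of (hf.analyticAt z) hm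
  have h6 : LogO g z n := logO_of (hg.analyticAt z) hn
  have h7 : LogO (fun s => g s * RF D a F s ^ N) z m := by
    refine LogO.congr h5 one_pos fun δ hδ _ => ?_
    apply h3
    rw [Complex.add_re, Complex.ofReal_re]
    linarith
  exact logO_of_pow hN (LogO.of_mul h7 h6)

theorem ord_near (hTp : ∀ p ∈ T, p.Prime) (hT : ∀ p : ℕ, p.Prime → p < 101 → p ∈ T)
    (ha : ∀ q : ℕ, |a q| ≤ 2 * Real.sqrt q) (hR : RH D a F) {N : ℕ} (hN : 0 < N)
    (hM : MERn D a F N) (z0 : ℂ) : ∃ ρ : ℝ, 0 < ρ ∧ ∀ z : ℂ, z.re = 1 → z ≠ z0 →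
      ‖z - z0‖ < ρ → LogO (RF D a F) z 0 := by
  obtain ⟨f, g, hf, hg, -, -, hgne, -, hfg, -⟩ := hM
  obtain ⟨-, hord⟩ := mer_ord D hTp hT ha hR hN hf hg hgne hfg
  have hf2 : f 2 ≠ 0 := by
    rw [← hfg 2 mer0_two]
    exact mul_ne_zero (hgne 2 mer0_two)
      (pow_ne_zero N (Pool.Agent.H73.AL.Lam_ne D hTp hT ha F mer0_two))
  have h1 := (mer0_near hf hf2 z0).and (mer0_near hg (hgne 2 mer0_two) z0)
  rw [eventually_nhdsWithin_iff, Metric.eventually_nhds_iff] at h1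
  obtain ⟨ρ, hρ, h2⟩ := h1
  refine ⟨ρ, hρ, fun z hz hne hlt => ?_⟩
  obtain ⟨h3, h4⟩ := h2 (y := z) (by rw [dist_eq_norm]; exact hlt) hne
  obtain ⟨m, n, hm, hn, h5⟩ := hord z
  have hm0 : m = 0 := by
    have := ((hf.analyticAt z).analyticOrderAt_eq_zero).2 h3
    rw [this] at hm
    exact_mod_cast hm.symm
  have hn0 : n = 0 := by
    have := ((hg.analyticAt z).analyticOrderAt_eq_zero).2 h4
    rw [this] at hn
    exact_mod_cast hn.symm
  have h6 := h5 hz.ge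
  rw [hm0, hn0] at h6
  simpa using h6

theorem ord_int (hTp : ∀ p ∈ T, p.Prime) (hT : ∀ p : ℕ, p.Prime → p < 101 → p ∈ T)
    (ha : ∀ q : ℕ, |a q| ≤ 2 * Real.sqrt q) (hR : RH D a F) {z : ℂ} (hz : 1 < z.re) :
    ∃ n : ℕ, analyticOrderAt (RF D a F) z = n ∧ LogO (RF D a F) z n := by
  obtain ⟨hd, -⟩ := RF_spec D a hR
  have h1 : AnalyticOnNhd ℂ (RF D a F) {s : ℂ | 1 < s.re} := hd.analyticOnNhd mer0_half_open
  have hfin : analyticOrderAt (RF D a F) z ≠ ⊤ := by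
    intro htop
    rw [analyticOrderAt_eq_top] at htop
    have h2 := h1.eqOn_zero_of_preconnected_of_eventuallyEq_zero
      (convex_halfSpace_re_gt 1).isPreconnected hz htop
    have h3 : (2 : ℂ) ∈ {s : ℂ | 1 < s.re} := by
      show (1 : ℝ) < (2 : ℂ).re
      rw [Complex.re_ofNat]
      norm_num
    exact RF_ne D hTp hT ha hR mer0_two (h2 h3)
  obtain ⟨n, hn⟩ := ENat.ne_top_iff_exists.1 hfin
  exact ⟨n, hn.symm, logO_of (h1 z hz) hn.symm⟩

end Pool.Agent.THF
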