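import Pool.Agent.THF.O.LogE

/-!
# THF/O-LogEK: the orders on the line `Re s = 3/2` and sums over places

If `LX x` is the power `f ^ n` on `Re s > 3/2`, then `log ‖f (z + δ)‖ = e log δ + O(1)` near a point of the line gives the
growth `- n e log (1/δ)` of the sum over the places (`log_LX`). For `K` we take `x = 1`, `n = 2`; for `L = K(√x)`, `n = 1`.
-/

namespace Pool.Agent.THF

open NumberField IsDedekindDomain Pool.Agent.HWR Pool.Agent.QD Pool.Agent.QD.In Pool.Agent.LD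
  Pool.Agent.MD

variable {K : Type} [Field K] [NumberField K] {T : Finset ℕ} (hTp : ∀ p ∈ T, p.Prime)
  (hT : ∀ p : ℕ, p.Prime → p < 101 → p ∈ T) (D : LocData T) {a : ℕ → ℝ}
  (ha : ∀ q : ℕ, |a q| ≤ 2 * Real.sqrt q) {S : Finset (HeightOneSpectrum (𝓞 K))}
  (h2 : ∀ v : HeightOneSpectrum (𝓞 K), (2 : 𝓞 K) ∈ v.asIdeal → v ∈ S)
  (hST : ∀ v : HeightOneSpectrum (𝓞 K), ¬ Away K T v → v ∈ S)

include hTp hT ha h2 hST in
private theorem LogEK_core (x : Kˣ) {z : ℂ} (hz : z.re = 1) {e : ℝ} {f : ℂ → ℂ} (n : ℕ)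
    (h : ∀ s : ℂ, 3 / 2 < s.re → LX D a x s = f s ^ n) (he : LogO (fun s => f (s + 1 / 2)) z e) :
    SumO S (fun v => (1 + (uK v x : ℝ)) * Ee a z.im v) (-(n * e)) := by
  have hre : (z + 1 / 2).re = 3 / 2 := by
    rw [Complex.add_re, hz]
    norm_num
  have him : (z + 1 / 2).im = z.im := by
    rw [Complex.add_im]
    norm_num
  obtain ⟨C1, δ1, hδ1, H1⟩ := log_LX hTp hT D ha h2 hST x hre
  obtain ⟨C2, δ2, hδ2, H2⟩ := he
  rw [him] at H1
  refine ⟨C1 + n * C2, min δ1 (δ2 / 2), lt_min hδ1 (half_pos hδ2), fun δ hδ hδ' => ?_⟩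
  have h3 := H1 δ hδ (hδ'.trans (min_le_left _ _))
  have h4 := (H2 δ hδ (by
    have := hδ'.trans (min_le_right _ _)
    linarith)).2
  have h5 : z + (δ : ℂ) + 1 / 2 = z + 1 / 2 + (δ : ℂ) := by ring
  have h6 : 3 / 2 < (z + 1 / 2 + (δ : ℂ)).re := by
    rw [Complex.add_re, hre, Complex.ofReal_re]
    linarith
  rw [h _ h6, norm_pow, Real.log_pow] at h3
  simp only [h5] at h4
  have h7 : Real.log (1 / δ) = - Real.log δ := by
    rw [one_div, Real.log_inv]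
  have hn : (0 : ℝ) ≤ n := Nat.cast_nonneg n
  rw [h7]
  rw [abs_le] at h3 h4 ⊢
  have h8 := mul_le_mul_of_nonneg_left h4.1 hn
  have h9 := mul_le_mul_of_nonneg_left h4.2 hn
  constructor <;> nlinarith [h3.1, h3.2]

include hTp hT ha h2 hST in
theorem sumE_K (hR : RH D a K) {z : ℂ} (hz : z.re = 1) {e : ℝ}
    (he : LogO (fun s => RF D a K (s + 1 / 2)) z e) : SumO S (Ee a z.im) (-e) := by
  have h1 := LogEK_core hTp hT D ha h2 hST (1 : Kˣ) hz 2 (fun s hs => by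
    rw [LX_sq D hTp hT ha ⟨1, (mul_one 1).symm⟩ hs, ((RF_spec D a hR).2 s hs)]) he
  have h3 := SumO.smul (1 / 2 : ℝ) h1
  have h4 : (fun v : HeightOneSpectrum (𝓞 K) => (1 / 2 : ℝ) * ((1 + (uK v (1 : Kˣ) : ℝ)) * Ee a z.im v)) =
      Ee a z.im := by
    funext v
    rw [uK_one]
    push_cast
    ring
  have h5 : (1 / 2 : ℝ) * -((2 : ℕ) * e) = -e := by
    push_cast
    ring
  rw [h4, h5] at h3
  exact h3

include hTp hT ha h2 hST in
theorem sumE_L {x : Kˣ} (hx : ¬ IsSquare x) (L : Type) [Field L] [NumberField L] [Algebra K L]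
    (hd : Module.finrank K L = 2) (θ : L) (hθ : θ ^ 2 = algebraMap K L (x : K))
    (hR : RH D a L) {z : ℂ} (hz : z.re = 1) {e : ℝ}
    (he : LogO (fun s => RF D a L (s + 1 / 2)) z e) :
    SumO S (fun v => (1 + (uK v x : ℝ)) * Ee a z.im v) (-e) := by
  have h1 := LogEK_core hTp hT D ha h2 hST x hz 1 (fun s hs => by
    rw [LX_quad D hTp hT ha hx L hd θ hθ hs, ((RF_spec D a hR).2 s hs), pow_one]) he
  have h5 : -((1 : ℕ) * e) = -e := by
    push_cast
    ring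
  rw [h5] at h1
  exact h1

end Pool.Agent.THF
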