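import Pool.Agent.THF.O.Defs

/-!
# THF/O-LogF: the symmetric square near a point of the line `Re s = 1`

`Ef a θ v = ((a_v² - N_v) / N_v) cos (2 θ log N_v)`.

PLAN.  `SP_base`, `SP_quad` (MD/S/Quad.lean) at `s = z + δ/2`: `(a² - q) Re q^(-2(z + δ/2)) = ((a² - q)/q) cos (2 Im z log q) q^(-(1+δ))` (`Re z = 1`).  `LogO` at `z + δ/2`: `logO_half`.
-/

namespace Pool.Agent.THF

open NumberField IsDedekindDomain Pool.Agent.HWR Pool.Agent.QD Pool.Agent.QD.In Pool.Agent.LD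
  Pool.Agent.MD

/-- `((a_v² - N_v) / N_v) cos (2 θ log N_v)` -/
noncomputable def Ef {K : Type} [Field K] [NumberField K] (a : ℕ → ℝ) (θ : ℝ)
    (v : HeightOneSpectrum (𝓞 K)) : ℝ :=
  (a (nrm v) ^ 2 - nrm v) / nrm v * Real.cos (2 * θ * Real.log (nrm v))

private theorem lf_re {q : ℕ} (hq : 0 < q) {z : ℂ} (hz : z.re = 1) (δ : ℝ) :
    ((q : ℂ) ^ (-(2 * (z + (δ / 2 : ℝ))))).re =
      Real.cos (2 * z.im * Real.log q) * ((q : ℝ) ^ (-(1 + δ)) / q) := by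
  have hq0 : (0 : ℝ) < q := by exact_mod_cast hq
  have hqc : (q : ℂ) ≠ 0 := Nat.cast_ne_zero.2 hq.ne'
  rw [Complex.cpow_def_of_ne_zero hqc, Complex.exp_re]
  have h1 : Complex.log (q : ℂ) = ((Real.log q : ℝ) : ℂ) := (Complex.natCast_log (n := q)).symm
  have h2 : (Complex.log (q : ℂ) * -(2 * (z + (δ / 2 : ℝ)))).re = Real.log q * (-(1 + δ) - 1) := by
    rw [h1, Complex.re_ofReal_mul]
    congr 1
    have h3 : (-(2 * (z + ((δ / 2 : ℝ) : ℂ)))).re = -(2 * (z.re + δ / 2)) := by simp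
    rw [h3, hz]
    ring
  have h4 : (Complex.log (q : ℂ) * -(2 * (z + (δ / 2 : ℝ)))).im = -(2 * z.im * Real.log q) := by
    rw [h1, Complex.im_ofReal_mul]
    have h3 : (-(2 * (z + ((δ / 2 : ℝ) : ℂ)))).im = -(2 * z.im) := by simp
    rw [h3]
    ring
  rw [h2, h4, Real.cos_neg, ← Real.rpow_def_of_pos hq0, Real.rpow_sub_one hq0.ne']
  ring

private theorem lf_term {K : Type} [Field K] [NumberField K] (a : ℕ → ℝ)
    (v : HeightOneSpectrum (𝓞 K)) {z : ℂ} (hz : z.re = 1) (δ : ℝ) :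
    (a (nrm v) ^ 2 - nrm v) * ((nrm v : ℂ) ^ (-(2 * (z + (δ / 2 : ℝ))))).re =
      Ef a z.im v * (nrm v : ℝ) ^ (-(1 + δ)) := by
  rw [lf_re (Nat.pos_of_ne_zero (nrm_ne_zero v)) hz, Ef]
  ring

variable {K : Type} [Field K] [NumberField K] {T : Finset ℕ}
  (hT : ∀ p : ℕ, p.Prime → p < 101 → p ∈ T) {a : ℕ → ℝ}
  (ha : ∀ q : ℕ, |a q| ≤ 2 * Real.sqrt q) {S : Finset (HeightOneSpectrum (𝓞 K))}
  (h2 : ∀ v : HeightOneSpectrum (𝓞 K), (2 : 𝓞 K) ∈ v.asIdeal → v ∈ S)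
  (hST : ∀ v : HeightOneSpectrum (𝓞 K), ¬ Away K T v → v ∈ S)

include ha in
theorem Ef_bd (θ : ℝ) (v : HeightOneSpectrum (𝓞 K)) : |Ef a θ v| ≤ 3 := by
  have hq0 : (0 : ℝ) < nrm v := by exact_mod_cast Nat.pos_of_ne_zero (nrm_ne_zero v)
  have h1 : |a (nrm v) ^ 2 - nrm v| ≤ 3 * nrm v := by
    have h2 : a (nrm v) ^ 2 ≤ 4 * nrm v := by
      have h3 := pow_le_pow_left₀ (abs_nonneg _) (ha (nrm v)) 2
      rw [sq_abs, mul_pow, Real.sq_sqrt hq0.le] at h3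
      linarith
    rw [abs_le]
    constructor
    · nlinarith [sq_nonneg (a (nrm v))]
    · linarith
  have h3 : |(a (nrm v) ^ 2 - nrm v) / nrm v| ≤ 3 := by
    rw [abs_div, abs_of_pos hq0, div_le_iff₀ hq0]
    exact h1
  rw [Ef, abs_mul]
  calc |(a (nrm v) ^ 2 - nrm v) / nrm v| * |Real.cos (2 * θ * Real.log (nrm v))| ≤ 3 * 1 :=
        mul_le_mul h3 (Real.abs_cos_le_one _) (abs_nonneg _) (by norm_num)
    _ = 3 := by norm_num

private theorem lf_gen {f : ℂ → ℂ} {z : ℂ} (hz : z.re = 1) {y : ℝ} (hy : LogO f z y)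
    (g : HeightOneSpectrum (𝓞 K) → ℝ) (a : ℕ → ℝ)
    (h : ∃ C : ℝ, ∀ s : ℂ, 1 < s.re → |Real.log ‖f s‖ - ∑' v : Io S, g v.1 *
      ((a (nrm v.1) ^ 2 - nrm v.1) * ((nrm v.1 : ℂ) ^ (-(2 * s))).re)| ≤ C) :
    SumO S (fun v => g v * Ef a z.im v) (-y) := by
  obtain ⟨C, hC⟩ := h
  obtain ⟨C', δ0, hδ0, h'⟩ := logO_half hy
  refine ⟨C + C', δ0, hδ0, fun δ h0 h1 => ?_⟩
  obtain ⟨-, h3⟩ := h' δ h0 h1
  have h4 := hC (z + (δ / 2 : ℝ)) (by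
    rw [Complex.add_re, Complex.ofReal_re, hz]
    linarith)
  have h5 : ∑' v : Io S, g v.1 * ((a (nrm v.1) ^ 2 - nrm v.1) *
      ((nrm v.1 : ℂ) ^ (-(2 * (z + (δ / 2 : ℝ))))).re) =
      ∑' v : Io S, (g v.1 * Ef a z.im v.1) * (nrm v.1 : ℝ) ^ (-(1 + δ)) :=
    tsum_congr fun v => by rw [lf_term a v.1 hz δ]; ring
  rw [h5] at h4
  rw [abs_le] at h3 h4 ⊢
  constructor <;> linarith [h3.1, h3.2, h4.1, h4.2]

include hT ha h2 hST in
theorem sumF_K (ha2 : SqRel K T a) {z : ℂ} (hz : z.re = 1) {y : ℝ} (hy : LogO (SP K a T) z y) :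
    SumO S (Ef a z.im) (-y) := by
  obtain ⟨C, hC⟩ := SP_base T hT ha S hST
  have h := lf_gen (S := S) hz hy (fun _ => 1) a ⟨C, fun s hs => by
    simp only [one_mul]
    exact hC s hs⟩
  simpa only [one_mul] using h

include hT ha h2 hST in
theorem sumF_L (hTp : ∀ p ∈ T, p.Prime) (ha2 : SqRel K T a) {x : Kˣ} (hx : ¬ IsSquare x) (L : Type) [Field L]
    [NumberField L] [Algebra K L] (hd : Module.finrank K L = 2) (θ : L)
    (hθ : θ ^ 2 = algebraMap K L (x : K)) {z : ℂ} (hz : z.re = 1) {y : ℝ}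
    (hy : LogO (SP L a T) z y) :
    SumO S (fun v => (1 + (uK v x : ℝ)) * Ef a z.im v) (-y) :=
  lf_gen (S := S) hz hy (fun v => 1 + (uK v x : ℝ)) a
    (SP_quad T hT ha S h2 hST x L θ hd hθ hx)

end Pool.Agent.THF
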