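import Pool.Agent.THF.O.Defs

/-!
# THF/O-ZL: the zeta function of a number field has no zeros on the line `Re w = 1`

PLAN.  `3 + 4 cos φ + cos 2φ = 2 (1 + cos φ)² ≥ 0`.  For `δ > 0`: `ZP F w = ∏' v, (1 - N_v^(-w))⁻¹` and `log ‖ZP F w‖ = ∑_v ∑_(k ≥ 1) Re N_v^(-k w) / k`, so `‖ZP (1+δ)‖³ ‖ZP (1+δ+iθ)‖⁴ ‖ZP (1+δ+2iθ)‖ ≥ 1`; multiply by the factors `(w - 1)`:
`‖Z (1+δ)‖³ ‖Z (1+δ+iθ)‖⁴ ‖Z (1+δ+2iθ)‖ ≥ δ³ ‖δ + iθ‖⁴ ‖δ + 2iθ‖`.  If `θ ≠ 0` and `Z (1 + iθ) = 0` then `‖Z (1+δ+iθ)‖ ≤ C δ` (differentiable) and the left side is `≤ C' δ⁴`: contradiction for `δ → 0`.  (Factorwise inequality: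
`‖1 - x‖³ ‖1 - x e^(iφ)‖⁴ ‖1 - x e^(2iφ)‖ ≤ 1` for `0 ≤ x < 1`; in Mathlib for Dirichlet L-functions: `DirichletCharacter.re_log_comb_nonneg'`, `norm_LSeries_product_ge_one` in Mathlib/NumberTheory/LSeries/Nonvanishing.lean: copy `re_log_comb_nonneg'`.)  Convergence of the product: `LD/E/Zeta.lean`, `QD/Z/Euler.lean`.
-/

namespace Pool.Agent.THF

open NumberField IsDedekindDomain Pool.Agent.HWR Pool.Agent.QD Pool.Agent.QD.In Pool.Agent.LD
  Pool.Agent.MD

open Filter Topology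

private theorem zl_comb {a : ℝ} (ha₀ : 0 ≤ a) (ha₁ : a < 1) {z : ℂ} (hz : ‖z‖ = 1) :
      0 ≤ 3 * (-Complex.log (1 - a)).re + 4 * (-Complex.log (1 - a * z)).re +
        (-Complex.log (1 - a * z ^ 2)).re := by
  have hac₀ : ‖(a : ℂ)‖ < 1 := by
    simp only [Complex.norm_of_nonneg ha₀, ha₁]
  have hac₁ : ‖a * z‖ < 1 := by rwa [norm_mul, hz, mul_one]
  have hac₂ : ‖a * z ^ 2‖ < 1 := by rwa [norm_mul, norm_pow, hz, one_pow, mul_one]
  rw [← ((Complex.hasSum_re <| Complex.hasSum_taylorSeries_neg_log hac₀).mul_left 3).add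
    ((Complex.hasSum_re <| Complex.hasSum_taylorSeries_neg_log hac₁).mul_left 4) |>.add
    (Complex.hasSum_re <| Complex.hasSum_taylorSeries_neg_log hac₂) |>.tsum_eq]
  refine tsum_nonneg fun n ↦ ?_
  simp only [← Complex.ofReal_pow, Complex.div_natCast_re, Complex.ofReal_re, mul_pow,
    Complex.mul_re, Complex.ofReal_im, zero_mul, sub_zero]
  rcases n.eq_zero_or_pos with rfl | hn
  · simp
  · simp only [← mul_div_assoc, ← add_div]
    refine div_nonneg ?_ n.cast_nonneg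
    rw [← pow_mul, pow_mul', sq, Complex.mul_re, ← sq, ← sq, ← Complex.sq_norm_sub_sq_re,
      norm_pow, hz]
    have h : (0 : ℝ) ≤ 2 * a ^ n * ((z ^ n).re + 1) ^ 2 := by positivity
    refine h.trans_eq ?_
    ring

variable (F : Type) [Field F] [NumberField F]

private noncomputable def xv (w : ℂ) (v : HeightOneSpectrum (𝓞 F)) : ℂ := (nrm v : ℂ) ^ (-w)

private theorem zl_two (v : HeightOneSpectrum (𝓞 F)) : (2 : ℝ) ≤ nrm v := by
  have h0 := nrm_ne_zero v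
  have h1 := nrm_ne_one v
  have : 2 ≤ nrm v := by omega
  exact_mod_cast this

private theorem xv_norm (w : ℂ) (v : HeightOneSpectrum (𝓞 F)) :
    ‖xv F w v‖ = (nrm v : ℝ) ^ (-w.re) := by
  have h := zl_two F v
  unfold xv
  rw [← Complex.ofReal_natCast, Complex.norm_cpow_eq_rpow_re_of_pos (by linarith), Complex.neg_re]

private theorem xv_lt {w : ℂ} (hw : 1 < w.re) (v : HeightOneSpectrum (𝓞 F)) :
    ‖xv F w v‖ < 1 := by
  rw [xv_norm]
  have h := zl_two F v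
  exact Real.rpow_lt_one_of_one_lt_of_neg (by linarith) (by linarith)

private theorem xv_sum {w : ℂ} (hw : 1 < w.re) : Summable (xv F w) := by
  refine Summable.of_norm ?_
  exact (summable_nrm F hw).congr fun v => (xv_norm F w v).symm

private theorem xv_log {w : ℂ} (hw : 1 < w.re) :
    Summable fun v => -Complex.log (1 - xv F w v) :=
  (xv_sum F hw).clog_one_sub.neg

private theorem ZP_exp {w : ℂ} (hw : 1 < w.re) :
    ZP F w = Complex.exp (∑' v, -Complex.log (1 - xv F w v)) := by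
  have h1 := (xv_log F hw).hasSum.cexp
  rw [← h1.tprod_eq]
  unfold ZP
  refine tprod_congr fun v => ?_
  have h2 : 1 - xv F w v ≠ 0 := by
    intro h
    have h3 : xv F w v = 1 := by linear_combination -h
    have h4 := xv_lt F hw v
    rw [h3, norm_one] at h4
    exact lt_irrefl _ h4
  show _ = Complex.exp (-Complex.log (1 - xv F w v))
  rw [Complex.exp_neg, Complex.exp_log h2]
  rfl

private theorem ZP_norm {w : ℂ} (hw : 1 < w.re) :
    ‖ZP F w‖ = Real.exp (∑' v, (-Complex.log (1 - xv F w v)).re) := by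
  rw [ZP_exp F hw, Complex.norm_exp, Complex.re_tsum (xv_log F hw)]

private theorem ZP_ge {σ : ℝ} (hσ : 1 < σ) (θ : ℝ) :
    1 ≤ ‖ZP F (σ : ℂ)‖ ^ 3 * ‖ZP F (σ + θ * Complex.I)‖ ^ 4 *
      ‖ZP F (σ + 2 * θ * Complex.I)‖ := by
  have h0 : 1 < ((σ : ℂ)).re := by rwa [Complex.ofReal_re]
  have h1 : 1 < ((σ : ℂ) + θ * Complex.I).re := by simpa using hσ
  have h2 : 1 < ((σ : ℂ) + 2 * θ * Complex.I).re := by simpa using hσ
  rw [ZP_norm F h0, ZP_norm F h1, ZP_norm F h2, ← Real.exp_nat_mul, ← Real.exp_nat_mul,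
    ← Real.exp_add, ← Real.exp_add, Real.one_le_exp_iff]
  have s0 := (Complex.hasSum_re (xv_log F h0).hasSum).summable.mul_left 3
  have s1 := (Complex.hasSum_re (xv_log F h1).hasSum).summable.mul_left 4
  have s2 := (Complex.hasSum_re (xv_log F h2).hasSum).summable
  push_cast
  rw [← tsum_mul_left, ← tsum_mul_left, ← s0.tsum_add s1, ← (s0.add s1).tsum_add s2]
  refine tsum_nonneg fun v => ?_
  have hv := zl_two F v
  have hv0 : (nrm v : ℂ) ≠ 0 := by
    have : (nrm v : ℝ) ≠ 0 := by linarith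
    exact_mod_cast this
  have ha : xv F (σ : ℂ) v = (((nrm v : ℝ) ^ (-σ) : ℝ) : ℂ) := by
    unfold xv
    rw [Complex.ofReal_cpow (Nat.cast_nonneg _)]
    push_cast
    rfl
  obtain ⟨z, hzd⟩ : ∃ z : ℂ, z = (nrm v : ℂ) ^ (-(θ * Complex.I)) := ⟨_, rfl⟩
  have hz : ‖z‖ = 1 := by
    rw [hzd, ← Complex.ofReal_natCast, Complex.norm_cpow_eq_rpow_re_of_pos (by linarith)]
    simp
  have hb : xv F (σ + θ * Complex.I) v = (((nrm v : ℝ) ^ (-σ) : ℝ) : ℂ) * z := by
    rw [← ha, hzd]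
    unfold xv
    rw [← Complex.cpow_add _ _ hv0]
    congr 1
    ring
  have hc : xv F (σ + 2 * θ * Complex.I) v = (((nrm v : ℝ) ^ (-σ) : ℝ) : ℂ) * z ^ 2 := by
    rw [← ha, hzd]
    unfold xv
    rw [← Complex.cpow_nat_mul, ← Complex.cpow_add _ _ hv0]
    congr 1
    push_cast
    ring
  have h3 := zl_comb (a := (nrm v : ℝ) ^ (-σ)) (Real.rpow_nonneg (by linarith) _)
    (Real.rpow_lt_one_of_one_lt_of_neg (by linarith) (by linarith)) hz
  rw [ha, hb, hc]
  exact h3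

theorem Z_ne_line (F : Type) [Field F] [NumberField F] {Z : ℂ → ℂ} (hZ : Differentiable ℂ Z)
    (h1 : Z 1 ≠ 0) (hw : ∀ w : ℂ, 1 < w.re → Z w = (w - 1) * ZP F w) {w : ℂ} (h : 1 ≤ w.re) :
    Z w ≠ 0 := by
  rcases h.lt_or_eq with hlt | heq
  · rw [hw w hlt, ZP_exp F hlt]
    refine mul_ne_zero ?_ (Complex.exp_ne_zero _)
    intro h0
    have : w = 1 := by linear_combination h0
    rw [this, Complex.one_re] at hlt
    exact lt_irrefl _ hlt
  · intro hzero
    obtain ⟨θ, hθ⟩ : ∃ θ : ℝ, θ = w.im := ⟨_, rfl⟩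
    have hwe : w = 1 + θ * Complex.I := by
      apply Complex.ext
      · simp [← heq]
      · simp [hθ]
    have hθ0 : θ ≠ 0 := by
      intro h0
      rw [hwe, h0] at hzero
      apply h1
      rw [← hzero]
      congr 1
      push_cast
      ring
    obtain ⟨D, hD⟩ : ∃ D, D = deriv Z w := ⟨_, rfl⟩
    have hd : HasDerivAt (fun y : ℝ => Z (w + (y : ℂ))) D 0 := by
      have h2 : HasDerivAt (fun u : ℂ => Z (w + u)) D ((0 : ℝ) : ℂ) := by
        have h3 : HasDerivAt Z D (w + ((0 : ℝ) : ℂ)) := by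
          rw [Complex.ofReal_zero, add_zero, hD]
          exact (hZ w).hasDerivAt
        exact h3.comp_const_add w _
      exact h2.comp_ofReal
    have ht := hd.tendsto_slope_zero_right
    have ht1 : Tendsto (fun δ : ℝ => ‖Z (1 + (δ : ℂ))‖ ^ 3) (𝓝[>] 0) (𝓝 (‖Z 1‖ ^ 3)) := by
      have hc : Continuous fun δ : ℝ => ‖Z (1 + (δ : ℂ))‖ ^ 3 :=
        ((hZ.continuous.comp (continuous_const.add Complex.continuous_ofReal)).norm).pow 3
      have h4 := (hc.tendsto 0).mono_left (nhdsWithin_le_nhds (s := Set.Ioi 0))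
      simpa using h4
    have ht2 : Tendsto (fun δ : ℝ => ‖Z (1 + (δ : ℂ) + 2 * θ * Complex.I)‖) (𝓝[>] 0)
        (𝓝 (‖Z (1 + 2 * θ * Complex.I)‖)) := by
      have hc : Continuous fun δ : ℝ => ‖Z (1 + (δ : ℂ) + 2 * θ * Complex.I)‖ :=
        (hZ.continuous.comp ((continuous_const.add Complex.continuous_ofReal).add
          continuous_const)).norm
      have h4 := (hc.tendsto 0).mono_left (nhdsWithin_le_nhds (s := Set.Ioi 0))
      simpa using h4
    have ht3 : Tendsto (fun δ : ℝ => δ) (𝓝[>] (0 : ℝ)) (𝓝 0) :=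
      tendsto_id.mono_left nhdsWithin_le_nhds
    have hT := ((ht1.mul (ht.norm.pow 4)).mul ht2).mul ht3
    rw [mul_zero] at hT
    have hge : 2 * |θ| ^ 5 ≤ 0 := by
      refine ge_of_tendsto hT ?_
      filter_upwards [self_mem_nhdsWithin] with δ hδ
      have hδ0 : (0 : ℝ) < δ := hδ
      have hδ1 : 1 < 1 + δ := by linarith
      have e0 := ZP_ge F hδ1 θ
      have c0 : ((1 + δ : ℝ) : ℂ) = 1 + (δ : ℂ) := by push_cast; ring
      rw [c0] at e0
      have r0 : 1 < (1 + (δ : ℂ)).re := by simpa using hδ0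
      have r1 : 1 < (1 + (δ : ℂ) + θ * Complex.I).re := by simpa using hδ0
      have r2 : 1 < (1 + (δ : ℂ) + 2 * θ * Complex.I).re := by simpa using hδ0
      have z0 : ‖Z (1 + (δ : ℂ))‖ = δ * ‖ZP F (1 + (δ : ℂ))‖ := by
        rw [hw _ r0, norm_mul, add_sub_cancel_left, Complex.norm_real,
          Real.norm_of_nonneg hδ0.le]
      have z1 : |θ| * ‖ZP F (1 + (δ : ℂ) + θ * Complex.I)‖ ≤
          ‖Z (1 + (δ : ℂ) + θ * Complex.I)‖ := by
        rw [hw _ r1, norm_mul]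
        refine mul_le_mul_of_nonneg_right ?_ (norm_nonneg _)
        have h5 := Complex.abs_im_le_norm (1 + (δ : ℂ) + θ * Complex.I - 1)
        simpa using h5
      have z2 : 2 * |θ| * ‖ZP F (1 + (δ : ℂ) + 2 * θ * Complex.I)‖ ≤
          ‖Z (1 + (δ : ℂ) + 2 * θ * Complex.I)‖ := by
        rw [hw _ r2, norm_mul]
        refine mul_le_mul_of_nonneg_right ?_ (norm_nonneg _)
        have h5 := Complex.abs_im_le_norm (1 + (δ : ℂ) + 2 * θ * Complex.I - 1)
        simpa [abs_mul] using h5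
      have z3 : ‖δ⁻¹ • (Z (w + ((0 + δ : ℝ) : ℂ)) - Z (w + ((0 : ℝ) : ℂ)))‖ =
          δ⁻¹ * ‖Z (1 + (δ : ℂ) + θ * Complex.I)‖ := by
        rw [norm_smul, Real.norm_of_nonneg (inv_nonneg.2 hδ0.le), zero_add, Complex.ofReal_zero,
          add_zero, hzero, sub_zero, hwe]
        congr 3
        ring
      rw [z3, z0]
      generalize ‖ZP F (1 + (δ : ℂ))‖ = A at e0
      generalize hB : ‖ZP F (1 + (δ : ℂ) + θ * Complex.I)‖ = B at e0 z1
      generalize hC : ‖ZP F (1 + (δ : ℂ) + 2 * θ * Complex.I)‖ = C at e0 z2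
      generalize ‖Z (1 + (δ : ℂ) + θ * Complex.I)‖ = b at z1
      generalize ‖Z (1 + (δ : ℂ) + 2 * θ * Complex.I)‖ = c at z2
      have hB0 : 0 ≤ B := hB ▸ norm_nonneg _
      have hC0 : 0 ≤ C := hC ▸ norm_nonneg _
      have ha0 : 0 ≤ |θ| := abs_nonneg _
      have hb4 : (|θ| * B) ^ 4 ≤ b ^ 4 := pow_le_pow_left₀ (mul_nonneg ha0 hB0) z1 4
      have hA3 : 0 ≤ A ^ 3 := by
        by_contra hn
        push Not at hn
        have : A ^ 3 * B ^ 4 * C ≤ 0 :=
          mul_nonpos_of_nonpos_of_nonneg (mul_nonpos_of_nonpos_of_nonneg hn.le (by positivity)) hC0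
        linarith
      have e1 : (δ * A) ^ 3 * (δ⁻¹ * b) ^ 4 * c * δ = A ^ 3 * (b ^ 4 * c) := by
        field_simp
      rw [e1]
      have e2 : (|θ| * B) ^ 4 * (2 * |θ| * C) ≤ b ^ 4 * c :=
        mul_le_mul hb4 z2 (by positivity) (by positivity)
      calc 2 * |θ| ^ 5 = 2 * |θ| ^ 5 * 1 := (mul_one _).symm
        _ ≤ 2 * |θ| ^ 5 * (A ^ 3 * B ^ 4 * C) := mul_le_mul_of_nonneg_left e0 (by positivity)
        _ = A ^ 3 * ((|θ| * B) ^ 4 * (2 * |θ| * C)) := by ring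
        _ ≤ A ^ 3 * (b ^ 4 * c) := mul_le_mul_of_nonneg_left e2 hA3
    have : 0 < |θ| := abs_pos.2 hθ0
    have h6 : 0 < |θ| ^ 5 := by positivity
    linarith

end Pool.Agent.THF
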