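import Pool.Agent.THF.O.Lb
import Pool.Agent.THF.O.Bes
import Pool.Agent.THF.O.Zth
import Pool.Agent.THF.K.Many
import Pool.Agent.QD.F.Trace

/-!
# THF/O-Int: the order on the central line is an integer (paper (5.2))

PLAN.  `mer_ord`: `o = (m - n)/N`, `LogO (RF) z o`.  `y = n1 - o - e - c` (`syO`), `S` from `exists_S2`.  Suppose `o` is not an integer, so `y` is not; `κ = dist (y, ℤ) > 0` (e.g. `|y - round y|`).  `V` from `hG K`.  `exists_manyN V n` with `n κ² > 9`: `x i`; `L = (qf ..).L` (QD), `D.HW a L` by `HWN`: the entire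
function `Λ` agrees with `RF D a L` on `Re s > 1` (identity theorem), so `LogO (RF L) z k` with `k = analyticOrderAt Λ z` natural (`logO_of`; not identically zero: `RF_ne`), so by `syO` for `L`: `LogO (SP L) z y_i`, `y_i` an integer.  `sumF_K`: `SumO S Ef (-y)`, `sumF_L`:
`SumO S ((1 + χ_i) Ef) (-y_i)`, `SumO.sub`: `SumO S (Ef * χ_i) (y - y_i)` (`(1 + χ) E - E = E χ`; `SumO` of equal functions), `|y - y_i| ≥ κ`.  `sum_bessel` with `B = 3`, `u i v = uK v (x i)` (`|u| ≤ 1`), `ho`: `ort_bd` with `θ = θ' = 0` (`cos 0 = 1`).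
-/

namespace Pool.Agent.THF

open NumberField IsDedekindDomain Pool.Agent.HWR Pool.Agent.QD Pool.Agent.QD.In Pool.Agent.LD
  Pool.Agent.MD

private theorem into_uK {K : Type} [Field K] [NumberField K] (v : HeightOneSpectrum (𝓞 K))
    (x : Kˣ) : |(uK v x : ℝ)| ≤ 1 := by
  unfold uK
  split_ifs <;> norm_num

private theorem into_ord {T : Finset ℕ} (hTp : ∀ p ∈ T, p.Prime)
    (hT : ∀ p : ℕ, p.Prime → p < 101 → p ∈ T) (D : LocData T) {a : ℕ → ℝ}
    (ha : ∀ q : ℕ, |a q| ≤ 2 * Real.sqrt q) (L : Type) [Field L] [NumberField L]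
    (h : D.HW a L) {z : ℂ} (hz : z.re = 1) : ∃ k : ℕ, LogO (RF D a L) z k := by
  obtain ⟨Λ, hΛ, -, -, hΛe⟩ := h
  have hI : IsRF D a L Λ := ⟨hΛ.differentiableOn, hΛe⟩
  have hR : RH D a L := ⟨Λ, hI⟩
  obtain ⟨hRd, hRe⟩ := RF_spec D a hR
  have hU : IsOpen {s : ℂ | 1 < s.re} := isOpen_lt continuous_const Complex.continuous_re
  have hconv : Convex ℝ {s : ℂ | 1 < s.re} := convex_halfSpace_re_gt 1
  have hΛa : ∀ w, AnalyticAt ℂ Λ w := fun w => hΛ.analyticAt w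
  have h2m : (2 : ℂ) ∈ {s : ℂ | 1 < s.re} := by simp
  have hev : Λ =ᶠ[nhds 2] RF D a L := by
    have h3 : {s : ℂ | 3 / 2 < s.re} ∈ nhds (2 : ℂ) :=
      (isOpen_lt continuous_const Complex.continuous_re).mem_nhds (by
        change (3 / 2 : ℝ) < (2 : ℂ).re
        norm_num)
    exact Filter.mem_of_superset h3 fun s hs => (hΛe s hs).trans (hRe s hs).symm
  have hEq : Set.EqOn Λ (RF D a L) {s : ℂ | 1 < s.re} :=
    AnalyticOnNhd.eqOn_of_preconnected_of_eventuallyEq (fun w _ => hΛa w) (hRd.analyticOnNhd hU)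
      hconv.isPreconnected h2m hev
  have hne : Λ 2 ≠ 0 := by
    rw [hEq h2m]
    exact RF_ne D hTp hT ha hR (by norm_num)
  have htop : analyticOrderAt Λ z ≠ ⊤ := by
    intro h7
    apply hne
    rw [AnalyticOnNhd.analyticOrderAt_eq_top_iff_eq_zero _ hΛa] at h7
    rw [h7]
    rfl
  obtain ⟨k, hk⟩ := ENat.ne_top_iff_exists.1 htop
  refine ⟨k, LogO.congr (logO_of (hΛa z) hk.symm) one_pos fun δ h0 _ => hEq ?_⟩
  change 1 < (z + (δ : ℂ)).re
  rw [Complex.add_re, Complex.ofReal_re, hz]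
  linarith

private theorem into_sy {T : Finset ℕ} (hTp : ∀ p ∈ T, p.Prime)
    (hT : ∀ p : ℕ, p.Prime → p < 101 → p ∈ T) (D : LocData T) {a : ℕ → ℝ}
    (ha : ∀ q : ℕ, |a q| ≤ 2 * Real.sqrt q) (hfr : FrobRel T a) (hG : Glob D a)
    (K : Type) [Field K] [NumberField K] {z : ℂ} (hz : z.re = 1) :
    ∃ n : ℤ, ∀ o : ℝ, LogO (RF D a K) z o → LogO (SP K a T) z ((n : ℝ) - o) := by
  obtain ⟨n, e, -, h⟩ := syO hTp hT D ha hfr hG K hz
  by_cases hz1 : z = 1
  · refine ⟨(n : ℤ) - e - 1, fun o ho => ?_⟩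
    have h1 := h o ho
    rw [if_pos hz1] at h1
    have e1 : (n : ℝ) - o - e - 1 = (((n : ℤ) - e - 1 : ℤ) : ℝ) - o := by
      push_cast
      ring
    rw [e1] at h1
    exact h1
  · refine ⟨(n : ℤ) - e, fun o ho => ?_⟩
    have h1 := h o ho
    rw [if_neg hz1] at h1
    have e1 : (n : ℝ) - o - e - 0 = (((n : ℤ) - e : ℤ) : ℝ) - o := by
      push_cast
      ring
    rw [e1] at h1
    exact h1

theorem intO {T : Finset ℕ} (hTp : ∀ p ∈ T, p.Prime)
    (hT : ∀ p : ℕ, p.Prime → p < 101 → p ∈ T) (D : LocData T) {a : ℕ → ℝ}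
    (ha : ∀ q : ℕ, |a q| ≤ 2 * Real.sqrt q) (hfr : FrobRel T a) (hG : Glob D a)
    (K : Type) [Field K] [NumberField K] {N : ℕ} (hN : 0 < N) (hM : MERn D a K N) {z : ℂ}
    (hz : z.re = 1) : ∃ k : ℤ, LogO (RF D a K) z k := by
  have hR : RH D a K := step1 hTp hT D ha hfr hG K
  obtain ⟨f, g, hf, hg, -, -, hgne, -, hfg, -⟩ := hM
  obtain ⟨-, h2⟩ := mer_ord D hTp hT ha hR hN hf hg hgne hfg
  obtain ⟨m, n, -, -, h3⟩ := h2 z
  have ho := h3 hz.ge
  generalize ((m : ℝ) - n) / N = o at ho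
  by_contra hcon
  have hoi : ∀ k : ℤ, (k : ℝ) ≠ o := fun k hk => hcon ⟨k, by rw [hk]; exact ho⟩
  obtain ⟨n1, hsy⟩ := into_sy hTp hT D ha hfr hG K hz
  have hy := hsy o ho
  have hyi : ∀ j : ℤ, (j : ℝ) ≠ (n1 : ℝ) - o := by
    intro j hj
    apply hoi (n1 - j)
    push_cast
    rw [hj]
    ring
  generalize (n1 : ℝ) - o = y at hy hyi
  have hκ : 0 < |y - round y| := abs_pos.2 (fun h => hyi (round y) (by linarith))
  have hκ' : ∀ j : ℤ, |y - round y| ≤ |y - j| := fun j => round_le y j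
  generalize |y - round y| = κ at hκ hκ'
  obtain ⟨nn, hnn⟩ := exists_nat_gt (9 / κ ^ 2)
  have hn9 : (3 : ℝ) ^ 2 < nn * κ ^ 2 := by
    rw [div_lt_iff₀ (by positivity)] at hnn
    linarith
  obtain ⟨V, -, -, hV, -⟩ := hG K
  obtain ⟨x, hx1, hx2, hx3⟩ := exists_manyN V nn
  obtain ⟨S, hS2, hST⟩ := exists_S2 K hTp (hT 2 Nat.prime_two (by norm_num))
  have ha2 : SqRel K T a := sqRel_of_frob K T a hfr
  have key : ∀ i, ∃ yi : ℤ, SumO S (fun v => Ef a z.im v * (uK v (x i) : ℝ)) (y - yi) := by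
    intro i
    have hHW : D.HW a (qf (hx3 i)).L :=
      hV (x i) (hx1 i) (qf (hx3 i)).L (qf (hx3 i)).θ (qf (hx3 i)).deg (qf (hx3 i)).sq
    obtain ⟨k, hk⟩ := into_ord hTp hT D ha (qf (hx3 i)).L hHW hz
    obtain ⟨n2, hsy2⟩ := into_sy hTp hT D ha hfr hG (qf (hx3 i)).L hz
    have hy2 := hsy2 k hk
    have h4 := sumF_L hT ha hS2 hST hTp ha2 (hx3 i) (qf (hx3 i)).L (qf (hx3 i)).deg
      (qf (hx3 i)).θ (qf (hx3 i)).sq hz hy2
    have h5 := sumF_K hT ha hS2 hST ha2 hz hy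
    have hb1 : ∀ v : HeightOneSpectrum (𝓞 K), |Ef a z.im v| ≤ 3 := fun v => Ef_bd ha z.im v
    have hb2 : ∀ v : HeightOneSpectrum (𝓞 K), |(1 + (uK v (x i) : ℝ)) * Ef a z.im v| ≤ 6 := by
      intro v
      have h8 := into_uK v (x i)
      have h9 : |1 + (uK v (x i) : ℝ)| ≤ 2 := by
        rw [abs_le] at h8 ⊢
        constructor <;> linarith
      rw [abs_mul]
      calc |1 + (uK v (x i) : ℝ)| * |Ef a z.im v| ≤ 2 * 3 :=
            mul_le_mul h9 (hb1 v) (abs_nonneg _) (by norm_num)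
        _ = 6 := by norm_num
    have h6 := SumO.sub hb2 hb1 h4 h5
    refine ⟨n2 - k, ?_⟩
    have e1 : (fun v : HeightOneSpectrum (𝓞 K) =>
        (1 + (uK v (x i) : ℝ)) * Ef a z.im v - Ef a z.im v) =
        fun v => Ef a z.im v * (uK v (x i) : ℝ) := by
      funext v
      ring
    have e2 : -((n2 : ℝ) - (k : ℝ)) - -y = y - ((n2 - k : ℤ) : ℝ) := by
      push_cast
      ring
    rw [e1, e2] at h6
    exact h6
  choose yi hyi' using key
  refine sum_bessel (K := K) (S := S) hκ hn9 (fun i v => (uK v (x i) : ℝ))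
    (fun i v => into_uK v (x i)) (Ef a z.im) (fun v => Ef_bd ha z.im v) ?_ (fun i => y - yi i)
    (fun i => hκ' (yi i)) hyi'
  intro i j hij
  have h7 := ort_bd hS2 (x i) (x j) (hx2 i j hij) 0 0
  simpa using h7

end Pool.Agent.THF
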