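import Pool.Agent.MD.S.OrdL
import Pool.Agent.MD.S.Quad
import Pool.Agent.LD.E.Zeta
import Pool.Agent.THF.K.Defs

/-!
# THF/O-Defs: logarithmic growth of sums over the places

`SumO S f κ`: `∑_{v ∉ S} f v N_v^(-(1+δ)) = κ log (1/δ) + O(1)` as `δ → 0+`.

The uniqueness statements follow from `log (1/δ) → ∞`; the bound for `κ` from `psum_le` (LD/E/Zeta).
-/

set_option autoImplicit false

namespace Pool.Agent.THF

open NumberField IsDedekindDomain Pool.Agent.HWR Pool.Agent.QD Pool.Agent.QD.In Pool.Agent.LD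
  Pool.Agent.MD

variable {K : Type} [Field K] [NumberField K]

/-- `∑_{v ∉ S} f v N_v^(-(1+δ)) = κ log (1/δ) + O(1)` as `δ → 0+` -/
def SumO (S : Finset (HeightOneSpectrum (𝓞 K))) (f : HeightOneSpectrum (𝓞 K) → ℝ) (κ : ℝ) : Prop :=
  ∃ C δ0 : ℝ, 0 < δ0 ∧ ∀ δ : ℝ, 0 < δ → δ ≤ δ0 →
    |∑' v : Io S, f v.1 * (nrm v.1 : ℝ) ^ (-(1 + δ)) - κ * Real.log (1 / δ)| ≤ C

variable {S : Finset (HeightOneSpectrum (𝓞 K))} {f g : HeightOneSpectrum (𝓞 K) → ℝ} {κ κ' B B' : ℝ}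

private theorem odf_nrm (S : Finset (HeightOneSpectrum (𝓞 K))) (B : ℝ) {δ : ℝ} (hδ : 0 < δ) :
    Summable fun v : Io S => B * (nrm v.1 : ℝ) ^ (-(1 + δ)) :=
  ((summable_nrm K (x := 1 + δ) (by linarith)).comp_injective
    (Subtype.val_injective (p := fun v => v ∉ S))).mul_left B

private theorem odf_sum (S : Finset (HeightOneSpectrum (𝓞 K))) {f : HeightOneSpectrum (𝓞 K) → ℝ}
    {B : ℝ} (hf : ∀ v, |f v| ≤ B) {δ : ℝ} (hδ : 0 < δ) :
    Summable fun v : Io S => f v.1 * (nrm v.1 : ℝ) ^ (-(1 + δ)) := by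
  refine Summable.of_norm_bounded (odf_nrm S B hδ) fun v => ?_
  rw [norm_mul, Real.norm_eq_abs, Real.norm_of_nonneg (by positivity)]
  exact mul_le_mul_of_nonneg_right (hf v.1) (by positivity)

private theorem odf_key {x C d : ℝ} (hd : 0 < d)
    (h : ∀ δ : ℝ, 0 < δ → δ ≤ d → x * Real.log (1 / δ) ≤ C) : x ≤ 0 := by
  by_contra hx
  push Not at hx
  have h1 := h (min d (Real.exp (-(C / x + 1)))) (lt_min hd (Real.exp_pos _)) (min_le_left _ _)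
  have h2 : Real.log (min d (Real.exp (-(C / x + 1)))) ≤ -(C / x + 1) := by
    rw [← Real.log_exp (-(C / x + 1))]
    exact Real.log_le_log (lt_min hd (Real.exp_pos _)) (by rw [Real.log_exp]; exact min_le_right _ _)
  rw [one_div, Real.log_inv] at h1
  have h3 : x * (C / x + 1) ≤ C := (mul_le_mul_of_nonneg_left (by linarith) hx.le).trans h1
  have h4 : x * (C / x + 1) = C + x := by
    field_simp
  linarith

private theorem odf_ne (K : Type) [Field K] [NumberField K] : Nonempty (HeightOneSpectrum (𝓞 K)) := by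
  obtain ⟨M, hM⟩ := Ideal.exists_maximal (𝓞 K)
  exact ⟨⟨M, hM.isPrime, Ring.ne_bot_of_isMaximal_of_not_isField hM (RingOfIntegers.not_isField K)⟩⟩

theorem SumO.add (hf : ∀ v, |f v| ≤ B) (hg : ∀ v, |g v| ≤ B') (h1 : SumO S f κ)
    (h2 : SumO S g κ') : SumO S (fun v => f v + g v) (κ + κ') := by
  obtain ⟨C, d, hd, h⟩ := h1
  obtain ⟨C', d', hd', h'⟩ := h2
  refine ⟨C + C', min d d', lt_min hd hd', fun δ h0 hδ => ?_⟩
  have a1 := h δ h0 (hδ.trans (min_le_left _ _))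
  have a2 := h' δ h0 (hδ.trans (min_le_right _ _))
  have e1 : ∑' v : Io S, (f v.1 + g v.1) * (nrm v.1 : ℝ) ^ (-(1 + δ)) =
      ∑' v : Io S, f v.1 * (nrm v.1 : ℝ) ^ (-(1 + δ)) +
        ∑' v : Io S, g v.1 * (nrm v.1 : ℝ) ^ (-(1 + δ)) := by
    rw [← (odf_sum S hf h0).tsum_add (odf_sum S hg h0)]
    exact tsum_congr fun v => add_mul _ _ _
  rw [e1]
  have e2 : ∑' v : Io S, f v.1 * (nrm v.1 : ℝ) ^ (-(1 + δ)) +
      ∑' v : Io S, g v.1 * (nrm v.1 : ℝ) ^ (-(1 + δ)) - (κ + κ') * Real.log (1 / δ) =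
      (∑' v : Io S, f v.1 * (nrm v.1 : ℝ) ^ (-(1 + δ)) - κ * Real.log (1 / δ)) +
        (∑' v : Io S, g v.1 * (nrm v.1 : ℝ) ^ (-(1 + δ)) - κ' * Real.log (1 / δ)) := by ring
  rw [e2]
  exact (abs_add_le _ _).trans (add_le_add a1 a2)

theorem SumO.sub (hf : ∀ v, |f v| ≤ B) (hg : ∀ v, |g v| ≤ B') (h1 : SumO S f κ)
    (h2 : SumO S g κ') : SumO S (fun v => f v - g v) (κ - κ') := by
  obtain ⟨C, d, hd, h⟩ := h1
  obtain ⟨C', d', hd', h'⟩ := h2
  refine ⟨C + C', min d d', lt_min hd hd', fun δ h0 hδ => ?_⟩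
  have a1 := h δ h0 (hδ.trans (min_le_left _ _))
  have a2 := h' δ h0 (hδ.trans (min_le_right _ _))
  have e1 : ∑' v : Io S, (f v.1 - g v.1) * (nrm v.1 : ℝ) ^ (-(1 + δ)) =
      ∑' v : Io S, f v.1 * (nrm v.1 : ℝ) ^ (-(1 + δ)) -
        ∑' v : Io S, g v.1 * (nrm v.1 : ℝ) ^ (-(1 + δ)) := by
    rw [← (odf_sum S hf h0).tsum_sub (odf_sum S hg h0)]
    exact tsum_congr fun v => sub_mul _ _ _
  rw [e1]
  have e2 : ∑' v : Io S, f v.1 * (nrm v.1 : ℝ) ^ (-(1 + δ)) -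
      ∑' v : Io S, g v.1 * (nrm v.1 : ℝ) ^ (-(1 + δ)) - (κ - κ') * Real.log (1 / δ) =
      (∑' v : Io S, f v.1 * (nrm v.1 : ℝ) ^ (-(1 + δ)) - κ * Real.log (1 / δ)) -
        (∑' v : Io S, g v.1 * (nrm v.1 : ℝ) ^ (-(1 + δ)) - κ' * Real.log (1 / δ)) := by ring
  rw [e2]
  exact (abs_sub _ _).trans (add_le_add a1 a2)

theorem SumO.smul (c : ℝ) (h1 : SumO S f κ) : SumO S (fun v => c * f v) (c * κ) := by
  obtain ⟨C, d, hd, h⟩ := h1
  refine ⟨|c| * C, d, hd, fun δ h0 hδ => ?_⟩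
  have a1 := h δ h0 hδ
  have e1 : ∑' v : Io S, c * f v.1 * (nrm v.1 : ℝ) ^ (-(1 + δ)) =
      c * ∑' v : Io S, f v.1 * (nrm v.1 : ℝ) ^ (-(1 + δ)) := by
    rw [← tsum_mul_left]
    exact tsum_congr fun v => mul_assoc _ _ _
  rw [e1, mul_assoc, ← mul_sub, abs_mul]
  exact mul_le_mul_of_nonneg_left a1 (abs_nonneg c)

theorem SumO.unique (h1 : SumO S f κ) (h2 : SumO S f κ') : κ = κ' := by
  obtain ⟨C, d, hd, h⟩ := h1
  obtain ⟨C', d', hd', h'⟩ := h2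
  have key : ∀ δ : ℝ, 0 < δ → δ ≤ min d d' → |(κ - κ') * Real.log (1 / δ)| ≤ C + C' := by
    intro δ h0 hδ
    have a1 := h δ h0 (hδ.trans (min_le_left _ _))
    have a2 := h' δ h0 (hδ.trans (min_le_right _ _))
    have e : (κ - κ') * Real.log (1 / δ) =
        (∑' v : Io S, f v.1 * (nrm v.1 : ℝ) ^ (-(1 + δ)) - κ' * Real.log (1 / δ)) -
          (∑' v : Io S, f v.1 * (nrm v.1 : ℝ) ^ (-(1 + δ)) - κ * Real.log (1 / δ)) := by ring
    rw [e]
    refine (abs_sub _ _).trans ?_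
    linarith
  have k1 := odf_key (lt_min hd hd') fun δ h0 hδ => (le_abs_self _).trans (key δ h0 hδ)
  have k2 : κ' - κ ≤ 0 := odf_key (lt_min hd hd') fun δ h0 hδ => by
    have e : (κ' - κ) * Real.log (1 / δ) = -((κ - κ') * Real.log (1 / δ)) := by ring
    rw [e]
    exact (neg_le_abs _).trans (key δ h0 hδ)
  linarith

theorem SumO.le_of (hf : ∀ v, |f v| ≤ B) (h1 : SumO S f κ) : |κ| ≤ B := by
  obtain ⟨C, d, hd, h⟩ := h1
  obtain ⟨C', hC'⟩ := psum_le S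
  have hB : 0 ≤ B := by
    obtain ⟨v⟩ := odf_ne K
    exact (abs_nonneg _).trans (hf v)
  have key : ∀ δ : ℝ, 0 < δ → δ ≤ min d 1 → |∑' v : Io S, f v.1 * (nrm v.1 : ℝ) ^ (-(1 + δ))| ≤
      B * (Real.log (1 / δ) + C') := by
    intro δ h0 hδ
    have a1 := odf_sum S hf h0
    have a2 : Summable fun v : Io S => B * (nrm v.1 : ℝ) ^ (-(1 + δ)) := odf_nrm S B h0
    have a3 : |∑' v : Io S, f v.1 * (nrm v.1 : ℝ) ^ (-(1 + δ))| ≤
        ∑' v : Io S, B * (nrm v.1 : ℝ) ^ (-(1 + δ)) := by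
      rw [← Real.norm_eq_abs]
      refine tsum_of_norm_bounded a2.hasSum fun v => ?_
      rw [norm_mul, Real.norm_eq_abs, Real.norm_of_nonneg (by positivity)]
      exact mul_le_mul_of_nonneg_right (hf v.1) (by positivity)
    rw [tsum_mul_left] at a3
    exact a3.trans (mul_le_mul_of_nonneg_left (hC' δ h0 (hδ.trans (min_le_right _ _))) hB)
  have k1 : κ - B ≤ 0 := odf_key (C := B * C' + C) (lt_min hd one_pos) fun δ h0 hδ => by
    have b1 := (abs_le.1 (h δ h0 (hδ.trans (min_le_left _ _)))).1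
    have b2 := (abs_le.1 (key δ h0 hδ)).2
    nlinarith
  have k2 : -κ - B ≤ 0 := odf_key (C := B * C' + C) (lt_min hd one_pos) fun δ h0 hδ => by
    have b1 := (abs_le.1 (h δ h0 (hδ.trans (min_le_left _ _)))).2
    have b2 := (abs_le.1 (key δ h0 hδ)).1
    nlinarith
  exact abs_le.2 ⟨by linarith, by linarith⟩

theorem logO_unique {f : ℂ → ℂ} {z : ℂ} {x y : ℝ} (h1 : LogO f z x) (h2 : LogO f z y) :
    x = y := by
  obtain ⟨C, d, hd, h⟩ := h1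
  obtain ⟨C', d', hd', h'⟩ := h2
  have hd0 : 0 < min d d' / 2 := half_pos (lt_min hd hd')
  have key : ∀ δ : ℝ, 0 < δ → δ ≤ min d d' / 2 → |(x - y) * Real.log (1 / δ)| ≤ C + C' := by
    intro δ h0 hδ
    have hlt : δ < min d d' := by linarith
    have a1 := (h δ h0 (hlt.trans_le (min_le_left _ _))).2
    have a2 := (h' δ h0 (hlt.trans_le (min_le_right _ _))).2
    have e : (x - y) * Real.log (1 / δ) = (Real.log ‖f (z + (δ : ℂ))‖ - x * Real.log δ) -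
        (Real.log ‖f (z + (δ : ℂ))‖ - y * Real.log δ) := by
      rw [one_div, Real.log_inv]
      ring
    rw [e]
    exact (abs_sub _ _).trans (add_le_add a1 a2)
  have k1 := odf_key hd0 fun δ h0 hδ => (le_abs_self _).trans (key δ h0 hδ)
  have k2 : y - x ≤ 0 := odf_key hd0 fun δ h0 hδ => by
    have e : (y - x) * Real.log (1 / δ) = -((x - y) * Real.log (1 / δ)) := by ring
    rw [e]
    exact (neg_le_abs _).trans (key δ h0 hδ)
  linarith

theorem logO_pow {f : ℂ → ℂ} {z : ℂ} {x : ℝ} (n : ℕ) (h : LogO f z x) :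
    LogO (fun s => f s ^ n) z (n * x) := by
  obtain ⟨C, d, hd, h⟩ := h
  refine ⟨n * C, d, hd, fun δ h0 hδ => ?_⟩
  obtain ⟨a1, a2⟩ := h δ h0 hδ
  refine ⟨pow_ne_zero n a1, ?_⟩
  dsimp only
  rw [norm_pow, Real.log_pow, mul_assoc, ← mul_sub, abs_mul, Nat.abs_cast]
  exact mul_le_mul_of_nonneg_left a2 (Nat.cast_nonneg n)

theorem logO_of_pow {f : ℂ → ℂ} {z : ℂ} {x : ℝ} {n : ℕ} (hn : 0 < n)
    (h : LogO (fun s => f s ^ n) z x) : LogO f z (x / n) := by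
  obtain ⟨C, d, hd, h⟩ := h
  have hn0 : (0 : ℝ) < n := by exact_mod_cast hn
  refine ⟨C / n, d, hd, fun δ h0 hδ => ?_⟩
  obtain ⟨a1, a2⟩ := h δ h0 hδ
  dsimp only at a1 a2
  have c1 : f (z + (δ : ℂ)) ≠ 0 := fun e => a1 (by rw [e, zero_pow hn.ne'])
  refine ⟨c1, ?_⟩
  rw [norm_pow, Real.log_pow] at a2
  have e : Real.log ‖f (z + (δ : ℂ))‖ - x / n * Real.log δ =
      (n * Real.log ‖f (z + (δ : ℂ))‖ - x * Real.log δ) / n := by
    field_simp
  rw [e, abs_div, abs_of_pos hn0]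
  exact div_le_div_of_nonneg_right a2 hn0.le

/-- the value on the half of the distance -/
theorem logO_half {f : ℂ → ℂ} {z : ℂ} {x : ℝ} (h : LogO f z x) : ∃ C δ0 : ℝ, 0 < δ0 ∧
    ∀ δ : ℝ, 0 < δ → δ ≤ δ0 → f (z + (δ / 2 : ℝ)) ≠ 0 ∧
      |Real.log ‖f (z + (δ / 2 : ℝ))‖ + x * Real.log (1 / δ)| ≤ C := by
  obtain ⟨C, d, hd, h⟩ := h
  refine ⟨C + |x * Real.log 2|, d, hd, fun δ h0 hδ => ?_⟩
  obtain ⟨a1, a2⟩ := h (δ / 2) (by linarith) (by linarith)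
  refine ⟨a1, ?_⟩
  have e : Real.log ‖f (z + ((δ / 2 : ℝ) : ℂ))‖ + x * Real.log (1 / δ) =
      (Real.log ‖f (z + ((δ / 2 : ℝ) : ℂ))‖ - x * Real.log (δ / 2)) - x * Real.log 2 := by
    rw [one_div, Real.log_inv, Real.log_div h0.ne' (by norm_num)]
    ring
  rw [e]
  exact (abs_sub _ _).trans (add_le_add a2 le_rfl)

end Pool.Agent.THF
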