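import Pool.Agent.THF.O.Defs
import Pool.Agent.THF.K.LXa
import Pool.Agent.THF.K.LXb
import Pool.Agent.HWR.LocalEst
import Pool.Agent.HWR.MainAux
import Pool.Agent.QD.In.EllX

/-!
# THF/O-LogE: the completed L-function near a point of the line `Re s = 3/2`

`Ee a θ v = (a_v / √N_v) cos (θ log N_v)`.

PLAN.  Adapt the proof of `gen_log` (MD/S/SymD.lean) and `log_Ls` (LD/E/Log.lean) to the factors `FF a q t s` (HWR/Defs): `t = 1`: `(1 - W)⁻²`, `t = 0`: `(1 - W)⁻¹`, `t = -1`: `((1 - W)(1 + W'))⁻¹`-like, in all cases `log ‖FF a q t s‖ = (1 + t) a_q Re q^(-s) + O(q^(-2))` for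
`Re s > 3/2`, `q ≥ 101` (for `t = -1` the factor is `1 + O(q^(2 - 2 Re s)) = 1 + O(q^(1 - 2 Re s + ..))`: look at the definition; `SP_quad`, MD/S/Quad.lean treats the three cases for `SP`).  So
`log ‖∏' v, FF a (nrm v) (tt x v) s‖ = ∑_v (1 + tt x v) a_v Re N_v^(-s) + O(1)`, uniformly for `Re s > 3/2` (product over the places away from `T`; the finitely many places in `S` away from `T` contribute `O(1)`; `tt x v = uK v x` outside `2`: `tt_uK`, QD/In/CongZ).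
The other factors of `LX D a x` at `z + δ` (`cpow` of a positive number, `gam1`, `plx`) are continuous and nonzero near `z` (`Re z = 3/2`; `plx_ne`, QD/In/EllX).  `a_v Re N_v^(-(3/2 + δ + iθ)) = (a_v/√N_v) cos (θ log N_v) N_v^(-(1+δ))`.
`sumE_K`: `x = 1` (a square): `LX D a 1 = D.Lam a K ^ 2` (`LX_sq`), `uK v 1 = 1`; `RF = Lam` on `Re s > 3/2` (`RF_spec`); `LogO` of the square is `2 e` (`logO_pow`), divide by 2.  `sumE_L`: `LX_quad`.
Here `LogO f z x` gives `log ‖f (z + δ)‖ = x log δ + O(1) = - x log (1/δ) + O(1)`.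
-/

namespace Pool.Agent.THF

open NumberField IsDedekindDomain Pool.Agent.HWR Pool.Agent.QD Pool.Agent.QD.In Pool.Agent.LD
  Pool.Agent.MD

/-- `(a_v / √N_v) cos (θ log N_v)` -/
noncomputable def Ee {K : Type} [Field K] [NumberField K] (a : ℕ → ℝ) (θ : ℝ)
    (v : HeightOneSpectrum (𝓞 K)) : ℝ :=
  a (nrm v) / Real.sqrt (nrm v) * Real.cos (θ * Real.log (nrm v))

/-! ### local estimates -/

private theorem LogE_log {w : ℂ} (h1 : ‖w‖ ≤ 1 / 2) :
    |Real.log ‖(1 - w)⁻¹‖ - w.re| ≤ ‖w‖ ^ 2 := by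
  have h2 := Complex.norm_log_one_add_sub_self_le (z := -w) (by rw [norm_neg]; linarith)
  rw [norm_neg] at h2
  have h3 := (Complex.abs_re_le_norm _).trans h2
  have e : (Complex.log (1 + -w) - -w).re = -(Real.log ‖(1 - w)⁻¹‖ - w.re) := by
    rw [norm_inv, Real.log_inv, Complex.sub_re, Complex.log_re, Complex.neg_re, ← sub_eq_add_neg]
    ring
  rw [e, abs_neg] at h3
  refine h3.trans ?_
  have h4 : (1 - ‖w‖)⁻¹ ≤ 2 := by
    rw [inv_le_comm₀ (by linarith) two_pos]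
    linarith
  have h5 := sq_nonneg ‖w‖
  nlinarith

private theorem LogE_y {q : ℕ} (hq : 101 ≤ q) {s : ℂ} (hs : 3 / 2 < s.re) :
    0 ≤ (q : ℝ) ^ (1 / 2 - s.re) ∧ (q : ℝ) ^ (1 / 2 - s.re) ≤ 1 / 101 ∧
      ((q : ℝ) ^ (1 / 2 - s.re)) ^ 2 ≤ (q : ℝ) ^ (-(2 : ℝ)) := by
  have hN : (101 : ℝ) ≤ q := by exact_mod_cast hq
  have h0 : (0 : ℝ) ≤ (q : ℝ) ^ (1 / 2 - s.re) := Real.rpow_nonneg (Nat.cast_nonneg _) _
  have h1 : (q : ℝ) ^ (1 / 2 - s.re) ≤ (q : ℝ) ^ (-1 : ℝ) :=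
    Real.rpow_le_rpow_of_exponent_le (by linarith) (by linarith)
  refine ⟨h0, h1.trans ?_, ?_⟩
  · rw [Real.rpow_neg_one, ← one_div]
    exact one_div_le_one_div_of_le (by norm_num) hN
  · have h2 : ((q : ℝ) ^ (-1 : ℝ)) ^ 2 = (q : ℝ) ^ (-(2 : ℝ)) := by
      rw [← Real.rpow_natCast, ← Real.rpow_mul (by linarith)]
      norm_num
    rw [← h2]
    exact pow_le_pow_left₀ h0 h1 2

section loc

variable {a : ℕ → ℝ} (ha : ∀ q : ℕ, |a q| ≤ 2 * Real.sqrt q) {q : ℕ} (hq : 101 ≤ q) {s : ℂ}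
  (hs : 3 / 2 < s.re)
include ha hq hs

private theorem LogE_efac : |Real.log ‖efac a q s‖ - a q * ((q : ℂ) ^ (-s)).re| ≤
    10 * (q : ℝ) ^ (-(2 : ℝ)) := by
  obtain ⟨h0, h1, h2⟩ := LogE_y hq hs
  have hw := LEst.norm_ww ha hq s
  set y := (q : ℝ) ^ (1 / 2 - s.re) with hy
  have hw3 : ‖LEst.ww a q s‖ ≤ 3 * y := by nlinarith
  have h3 := LogE_log (w := LEst.ww a q s) (by linarith)
  rw [← LEst.efac_eq] at h3
  have h4 : ‖LEst.ww a q s‖ ^ 2 ≤ (3 * y) ^ 2 := pow_le_pow_left₀ (norm_nonneg _) hw3 2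
  have h5 : |((q : ℂ) ^ (1 - 2 * s)).re| ≤ y ^ 2 := by
    refine (Complex.abs_re_le_norm _).trans ?_
    rw [Complex.norm_natCast_cpow_of_pos (by omega), hy, LEst.y_sq hq]
    have e1 : (1 - 2 * s).re = 1 - 2 * s.re := by simp
    rw [e1]
  have h6 : (LEst.ww a q s).re = a q * ((q : ℂ) ^ (-s)).re - ((q : ℂ) ^ (1 - 2 * s)).re := by
    unfold LEst.ww
    rw [Complex.sub_re, Complex.re_ofReal_mul]
  rw [h6] at h3
  rw [abs_le] at h3 h5 ⊢
  constructor <;> nlinarith [h3.1, h3.2, h5.1, h5.2]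

private theorem LogE_Fm : |Real.log ‖Fm a q s‖| ≤ 10 * (q : ℝ) ^ (-(2 : ℝ)) := by
  obtain ⟨h0, h1, h2⟩ := LogE_y hq hs
  have hw := LEst.norm_ww2 ha hq s
  set y := (q : ℝ) ^ (1 / 2 - s.re) with hy
  have h3 : y ^ 4 ≤ y ^ 2 := pow_le_pow_of_le_one h0 (by linarith) (by norm_num)
  have h4 : y ^ 2 ≤ 1 / 101 := by nlinarith
  have hw3 : ‖LEst.ww a (q ^ 2) s‖ ≤ 3 * y ^ 2 := by linarith
  have h5 := LogE_log (w := LEst.ww a (q ^ 2) s) (by linarith)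
  rw [← LEst.efac_eq] at h5
  have h6 := Complex.abs_re_le_norm (LEst.ww a (q ^ 2) s)
  have h7 : ‖LEst.ww a (q ^ 2) s‖ ^ 2 ≤ ‖LEst.ww a (q ^ 2) s‖ := by
    have := norm_nonneg (LEst.ww a (q ^ 2) s)
    nlinarith
  have e : Fm a q s = efac a (q ^ 2) s := rfl
  rw [e]
  rw [abs_le] at h5 h6 ⊢
  constructor <;> linarith [h5.1, h5.2, h6.1, h6.2]

private theorem LogE_FF {t : ℤ} (ht : t = 1 ∨ t = -1 ∨ t = 0) :
    |Real.log ‖FF a q t s‖ - (1 + (t : ℝ)) * (a q * ((q : ℂ) ^ (-s)).re)| ≤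
      20 * (q : ℝ) ^ (-(2 : ℝ)) := by
  have hE := LogE_efac ha hq hs
  have hF := LogE_Fm ha hq hs
  have hp : 0 ≤ (q : ℝ) ^ (-(2 : ℝ)) := Real.rpow_nonneg (Nat.cast_nonneg _) _
  rcases ht with rfl | rfl | rfl
  · unfold HWR.FF F1
    rw [Int.cast_one, if_pos rfl, norm_pow, Real.log_pow]
    rw [abs_le] at hE ⊢
    push_cast
    constructor <;> linarith [hE.1, hE.2]
  · have hne : ((-1 : ℤ) : ℂ) ≠ 1 := by norm_num
    have hm : ((-1 : ℤ) : ℂ) = -1 := by norm_num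
    unfold HWR.FF
    rw [if_neg hne, if_pos hm]
    rw [abs_le] at hF ⊢
    push_cast
    constructor <;> linarith [hF.1, hF.2]
  · have h0 : ((0 : ℤ) : ℂ) ≠ 1 := by norm_num
    have h1 : ((0 : ℤ) : ℂ) ≠ -1 := by norm_num
    unfold HWR.FF
    rw [if_neg h0, if_neg h1]
    rw [abs_le] at hE ⊢
    push_cast
    constructor <;> linarith [hE.1, hE.2]

private theorem LogE_ne {t : ℤ} (ht : t = 1 ∨ t = -1 ∨ t = 0) : FF a q t s ≠ 0 := by
  have hs1 : 1 ≤ s.re := by linarith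
  rcases ht with rfl | rfl | rfl
  · unfold HWR.FF F1
    rw [Int.cast_one, if_pos rfl]
    exact pow_ne_zero 2 (efac_ne ha hq hs1)
  · have hne : ((-1 : ℤ) : ℂ) ≠ 1 := by norm_num
    have hm : ((-1 : ℤ) : ℂ) = -1 := by norm_num
    unfold HWR.FF
    rw [if_neg hne, if_pos hm]
    exact Fm_ne ha hq hs1
  · have h0 : ((0 : ℤ) : ℂ) ≠ 1 := by norm_num
    have h1 : ((0 : ℤ) : ℂ) ≠ -1 := by norm_num
    unfold HWR.FF
    rw [if_neg h0, if_neg h1]
    exact efac_ne ha hq hs1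

private theorem LogE_sub {t : ℤ} (ht : t = 1 ∨ t = -1 ∨ t = 0) :
    ‖FF a q t s - 1‖ ≤ 7 * (q : ℝ) ^ (1 / 2 - s.re) := by
  have hs1 : 1 ≤ s.re := by linarith
  obtain ⟨h0, h1, h2⟩ := LogE_y hq hs
  have hE := efac_sub_one ha hq hs1
  have hF := Fm_sub_one ha hq hs1
  rw [← LEst.y_sq hq] at hF
  set y := (q : ℝ) ^ (1 / 2 - s.re) with hy
  rcases ht with rfl | rfl | rfl
  · unfold HWR.FF F1
    rw [Int.cast_one, if_pos rfl]
    have e : efac a q s ^ 2 - 1 = (efac a q s - 1) * ((efac a q s - 1) + 2) := by ring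
    rw [e, norm_mul]
    have h3 : ‖(efac a q s - 1) + 2‖ ≤ 7 / 3 := by
      refine (norm_add_le _ _).trans ?_
      have : ‖(2 : ℂ)‖ = 2 := by norm_num
      rw [this]
      linarith
    have h4 := mul_le_mul hE h3 (norm_nonneg _) (by positivity)
    linarith
  · have hne : ((-1 : ℤ) : ℂ) ≠ 1 := by norm_num
    have hm : ((-1 : ℤ) : ℂ) = -1 := by norm_num
    unfold HWR.FF
    rw [if_neg hne, if_pos hm]
    nlinarith
  · have h0' : ((0 : ℤ) : ℂ) ≠ 1 := by norm_num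
    have h1' : ((0 : ℤ) : ℂ) ≠ -1 := by norm_num
    unfold HWR.FF
    rw [if_neg h0', if_neg h1']
    linarith

end loc

/-- the logarithm of the product -/
private theorem LogE_prod {ι : Type} (N : ι → ℕ) (t : ι → ℤ) {a : ℕ → ℝ}
    (ha : ∀ q : ℕ, |a q| ≤ 2 * Real.sqrt q) (hN : ∀ v, 101 ≤ N v)
    (ht : ∀ v, t v = 1 ∨ t v = -1 ∨ t v = 0)
    (hsum : ∀ x : ℝ, 1 < x → Summable fun v => (N v : ℝ) ^ (-x)) {s : ℂ} (hs : 3 / 2 < s.re) :
    ∏' v, FF a (N v) (t v) s ≠ 0 ∧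
      |Real.log ‖∏' v, FF a (N v) (t v) s‖ -
        ∑' v, (1 + (t v : ℝ)) * (a (N v) * ((N v : ℂ) ^ (-s)).re)| ≤
          ∑' v, 20 * (N v : ℝ) ^ (-(2 : ℝ)) := by
  have hss : Summable fun v => (N v : ℝ) ^ (1 / 2 - s.re) := by
    have h := hsum (s.re - 1 / 2) (by linarith)
    simpa only [neg_sub] using h
  have hb : Summable fun v => 20 * (N v : ℝ) ^ (-(2 : ℝ)) := (hsum 2 one_lt_two).mul_left 20
  have hne : ∀ v, FF a (N v) (t v) s ≠ 0 := fun v => LogE_ne ha (hN v) hs (ht v)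
  have hlog : Summable fun v => Complex.log (FF a (N v) (t v) s) := by
    refine Summable.of_norm_bounded (hss.mul_left 11) fun v => ?_
    have h2 := LogE_sub ha (hN v) hs (ht v)
    obtain ⟨h3, h4, -⟩ := LogE_y (hN v) hs
    have h1 := Complex.norm_log_one_add_half_le_self (z := FF a (N v) (t v) s - 1) (by linarith)
    rw [add_sub_cancel] at h1
    linarith
  have hexp := Complex.cexp_tsum_eq_tprod hne hlog
  refine ⟨by rw [← hexp]; exact Complex.exp_ne_zero _, ?_⟩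
  have hre : Real.log ‖∏' v, FF a (N v) (t v) s‖ = ∑' v, Real.log ‖FF a (N v) (t v) s‖ := by
    rw [← hexp, Complex.norm_exp, Real.log_exp, Complex.re_tsum hlog]
    exact tsum_congr fun v => Complex.log_re _
  have hs1 : Summable fun v => Real.log ‖FF a (N v) (t v) s‖ := by
    have h1 := (Complex.hasSum_re hlog.hasSum).summable
    refine h1.congr fun v => ?_
    exact Complex.log_re _
  have hd : Summable fun v => Real.log ‖FF a (N v) (t v) s‖ -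
      (1 + (t v : ℝ)) * (a (N v) * ((N v : ℂ) ^ (-s)).re) := by
    refine Summable.of_norm_bounded hb fun v => ?_
    rw [Real.norm_eq_abs]
    exact LogE_FF ha (hN v) hs (ht v)
  have hs2 : Summable fun v => (1 + (t v : ℝ)) * (a (N v) * ((N v : ℂ) ^ (-s)).re) := by
    refine (hs1.sub hd).congr fun v => ?_
    ring
  rw [hre, ← hs1.tsum_sub hs2, ← Real.norm_eq_abs]
  refine tsum_of_norm_bounded hb.hasSum fun v => ?_
  rw [Real.norm_eq_abs]
  exact LogE_FF ha (hN v) hs (ht v)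

private theorem LogE_re {q : ℕ} (hq : q ≠ 0) (s : ℂ) :
    ((q : ℂ) ^ (-s)).re = (q : ℝ) ^ (-s.re) * Real.cos (s.im * Real.log q) := by
  have hq' : (q : ℂ) ≠ 0 := by exact_mod_cast hq
  have hq0 : (0 : ℝ) < q := by exact_mod_cast Nat.pos_of_ne_zero hq
  rw [Complex.cpow_def_of_ne_zero hq', ← Complex.natCast_log, Complex.exp_re,
    Real.rpow_def_of_pos hq0]
  have e1 : ((Real.log (q : ℝ) : ℂ) * -s).re = Real.log q * -s.re := by
    rw [Complex.re_ofReal_mul, Complex.neg_re]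
  have e2 : ((Real.log (q : ℝ) : ℂ) * -s).im = -(s.im * Real.log q) := by
    rw [Complex.im_ofReal_mul, Complex.neg_im]
    ring
  rw [e1, e2, Real.cos_neg]

variable {K : Type} [Field K] [NumberField K] {T : Finset ℕ} (hTp : ∀ p ∈ T, p.Prime)
  (hT : ∀ p : ℕ, p.Prime → p < 101 → p ∈ T) (D : LocData T) {a : ℕ → ℝ}
  (ha : ∀ q : ℕ, |a q| ≤ 2 * Real.sqrt q) {S : Finset (HeightOneSpectrum (𝓞 K))}
  (h2 : ∀ v : HeightOneSpectrum (𝓞 K), (2 : 𝓞 K) ∈ v.asIdeal → v ∈ S)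
  (hST : ∀ v : HeightOneSpectrum (𝓞 K), ¬ Away K T v → v ∈ S)

include ha in
theorem Ee_bd (θ : ℝ) (v : HeightOneSpectrum (𝓞 K)) : |Ee a θ v| ≤ 2 := by
  have h0 : (0 : ℝ) < nrm v := by exact_mod_cast Nat.pos_of_ne_zero (nrm_ne_zero v)
  have h1 : 0 < Real.sqrt (nrm v) := Real.sqrt_pos.2 h0
  unfold Ee
  rw [abs_mul, abs_div, abs_of_pos h1]
  have h2 : |a (nrm v)| / Real.sqrt (nrm v) ≤ 2 := by
    rw [div_le_iff₀ h1]
    exact ha _
  have h3 := Real.abs_cos_le_one (θ * Real.log (nrm v))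
  have h4 := mul_le_mul h2 h3 (abs_nonneg _) zero_le_two
  rwa [mul_one] at h4

private theorem LogE_Ee (v : HeightOneSpectrum (𝓞 K)) {z : ℂ} (hz : z.re = 3 / 2) (δ : ℝ) :
    a (nrm v) * ((nrm v : ℂ) ^ (-(z + δ))).re = Ee a z.im v * (nrm v : ℝ) ^ (-(1 + δ)) := by
  have h0 : (0 : ℝ) < nrm v := by exact_mod_cast Nat.pos_of_ne_zero (nrm_ne_zero v)
  have h1 : 0 < Real.sqrt (nrm v) := Real.sqrt_pos.2 h0
  rw [LogE_re (nrm_ne_zero v)]
  have e1 : (z + (δ : ℂ)).re = 3 / 2 + δ := by rw [Complex.add_re, Complex.ofReal_re, hz]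
  have e2 : (z + (δ : ℂ)).im = z.im := by rw [Complex.add_im, Complex.ofReal_im, add_zero]
  rw [e1, e2]
  unfold Ee
  have e3 : (nrm v : ℝ) ^ (-(3 / 2 + δ)) * Real.sqrt (nrm v) = (nrm v : ℝ) ^ (-(1 + δ)) := by
    rw [Real.sqrt_eq_rpow, ← Real.rpow_add h0]
    congr 1
    ring
  rw [← e3]
  field_simp

private theorem LogE_bdd {h : ℂ → ℂ} {z : ℂ} (hc : ContinuousAt h z) (h0 : h z ≠ 0) :
    ∃ C δ0 : ℝ, 0 < δ0 ∧ ∀ δ : ℝ, 0 < δ → δ ≤ δ0 → h (z + δ) ≠ 0 ∧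
      |Real.log ‖h (z + δ)‖| ≤ C := by
  have hl : ContinuousAt (fun w => Real.log ‖h w‖) z := hc.norm.log (norm_ne_zero_iff.2 h0)
  have h1 : ∀ᶠ w in nhds z, |Real.log ‖h w‖| < |Real.log ‖h z‖| + 1 :=
    (hl.abs).eventually_lt_const (by linarith)
  have h2 : ∀ᶠ w in nhds z, h w ≠ 0 := hc.eventually_ne h0
  obtain ⟨ε, hε, hball⟩ := Metric.eventually_nhds_iff.1 (h1.and h2)
  refine ⟨|Real.log ‖h z‖| + 1, ε / 2, half_pos hε, fun δ hδ hδε => ?_⟩
  have hd : dist (z + (δ : ℂ)) z < ε := by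
    rw [dist_eq_norm, add_sub_cancel_left, Complex.norm_real, Real.norm_eq_abs, abs_of_pos hδ]
    linarith
  obtain ⟨h3, h4⟩ := hball hd
  exact ⟨h4, h3.le⟩

private theorem LogE_plx (x : Kˣ) : Continuous (plx D x) := by
  by_cases h : IsSquare x
  · have : plx D x = fun s => D.pl K s ^ 2 := by
      funext s
      unfold plx
      rw [dif_pos h]
    rw [this]
    exact ((pl_diff D K).pow 2).continuous
  · have : plx D x = D.pl (qf h).L := by
      funext s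
      unfold plx
      rw [dif_neg h]
    rw [this]
    exact (pl_diff D _).continuous

include hTp hT ha h2 hST in
/-- near a point of `Re s = 3/2` -/
theorem log_LX (x : Kˣ) {z : ℂ} (hz : z.re = 3 / 2) : ∃ C δ0 : ℝ, 0 < δ0 ∧
    ∀ δ : ℝ, 0 < δ → δ ≤ δ0 → |Real.log ‖LX D a x (z + δ)‖ -
      ∑' v : Io S, ((1 + (uK v.1 x : ℝ)) * Ee a z.im v.1) * (nrm v.1 : ℝ) ^ (-(1 + δ))| ≤ C := by
  classical
  -- the continuous factor
  set H : ℂ → ℂ := fun s => ((dd x ^ 2 * cdx D x : ℝ) : ℂ) ^ (s / 2) *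
    gam1 s ^ (2 * Module.finrank ℚ K) * (plx D x s)⁻¹ with hH
  have hA : ((dd x ^ 2 * cdx D x : ℝ) : ℂ) ≠ 0 := by
    have := mul_pos (pow_pos (dd_pos x) 2) (cdx_pos D x)
    exact_mod_cast this.ne'
  have hpl : plx D x z ≠ 0 := plx_ne D x (by rw [hz]; norm_num)
  have hg : ContinuousAt gam1 z := (HWR.gam1_diff (by rw [hz]; norm_num)).continuousAt
  have hHc : ContinuousAt H z := by
    refine ContinuousAt.mul (ContinuousAt.mul ?_ (hg.pow _)) ((LogE_plx D x).continuousAt.inv₀ hpl)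
    exact ContinuousAt.const_cpow (continuousAt_id.div_const 2) (Or.inl hA)
  have hH0 : H z ≠ 0 := by
    refine mul_ne_zero (mul_ne_zero ?_ (pow_ne_zero _ (HWR.gam1_ne (by rw [hz]; norm_num))))
      (inv_ne_zero hpl)
    rw [Complex.cpow_ne_zero_iff]
    exact Or.inl hA
  obtain ⟨C1, δ0, hδ0, hC1⟩ := LogE_bdd hHc hH0
  refine ⟨C1 + (∑' v : {v : HeightOneSpectrum (𝓞 K) // Away K T v}, 20 * (nrm v.1 : ℝ) ^ (-(2 : ℝ)))
    + S.card * 4, δ0, hδ0, fun δ hδ hδ1 => ?_⟩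
  obtain ⟨hHne, hHb⟩ := hC1 δ hδ hδ1
  have hs : 3 / 2 < (z + (δ : ℂ)).re := by
    rw [Complex.add_re, Complex.ofReal_re, hz]
    linarith
  have hsumA : ∀ y : ℝ, 1 < y → Summable fun v : {v : HeightOneSpectrum (𝓞 K) // Away K T v} =>
      (nrm v.1 : ℝ) ^ (-y) := fun y hy =>
    (summable_nrm K hy).comp_injective Subtype.val_injective
  obtain ⟨hPne, hPb⟩ := LogE_prod (fun v : {v : HeightOneSpectrum (𝓞 K) // Away K T v} => nrm v.1)
    (fun v => tt x v.1) ha (fun v => nrm_away K T hT v.1 v.2) (fun v => tt_cases x v.1) hsumA hs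
  -- the sum
  set G : HeightOneSpectrum (𝓞 K) → ℝ := fun v =>
    (1 + (tt x v : ℝ)) * (a (nrm v) * ((nrm v : ℂ) ^ (-(z + (δ : ℂ)))).re) with hG
  have hy0 : ∀ v : HeightOneSpectrum (𝓞 K), 0 ≤ (nrm v : ℝ) ^ (-(1 + δ)) := fun v =>
    Real.rpow_nonneg (Nat.cast_nonneg _) _
  have hGb : ∀ v, |G v| ≤ 4 * (nrm v : ℝ) ^ (-(1 + δ)) := by
    intro v
    have h1 : |1 + (tt x v : ℝ)| ≤ 2 := by
      rcases tt_cases x v with h | h | h <;> rw [h] <;> norm_num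
    have h3 := Ee_bd (a := a) ha z.im v
    show |(1 + (tt x v : ℝ)) * (a (nrm v) * ((nrm v : ℂ) ^ (-(z + (δ : ℂ)))).re)| ≤ _
    rw [LogE_Ee v hz δ, abs_mul, abs_mul, abs_of_nonneg (hy0 v)]
    have h4 := mul_le_mul_of_nonneg_right h3 (hy0 v)
    have h5 := mul_le_mul h1 h4 (mul_nonneg (abs_nonneg _) (hy0 v)) zero_le_two
    linarith
  set G' : HeightOneSpectrum (𝓞 K) → ℝ := Set.indicator {v | Away K T v} G with hG'
  have hG'b : ∀ v, |G' v| ≤ 4 * (nrm v : ℝ) ^ (-(1 + δ)) := by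
    intro v
    by_cases hv : v ∈ {v : HeightOneSpectrum (𝓞 K) | Away K T v}
    · rw [hG', Set.indicator_of_mem hv]
      exact hGb v
    · rw [hG', Set.indicator_of_notMem hv, abs_zero]
      have := hy0 v
      linarith
  have hG's : Summable G' := by
    refine Summable.of_norm_bounded ((summable_nrm K (x := 1 + δ) (by linarith)).mul_left 4)
      fun v => ?_
    rw [Real.norm_eq_abs]
    exact hG'b v
  have e1 : ∑' v : {v : HeightOneSpectrum (𝓞 K) // Away K T v}, G v.1 = ∑' v, G' v :=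
    tsum_subtype {v : HeightOneSpectrum (𝓞 K) | Away K T v} G
  have e2 : ∑' v, G' v = (∑ v ∈ S, G' v) + ∑' v : Io S, G' v.1 :=
    (hG's.sum_add_tsum_subtype_compl S).symm
  have e3 : ∑' v : Io S, G' v.1 =
      ∑' v : Io S, ((1 + (uK v.1 x : ℝ)) * Ee a z.im v.1) * (nrm v.1 : ℝ) ^ (-(1 + δ)) := by
    refine tsum_congr fun v => ?_
    have hv : v.1 ∈ {v : HeightOneSpectrum (𝓞 K) | Away K T v} := by
      by_contra hcon
      exact v.2 (hST v.1 hcon)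
    rw [hG', Set.indicator_of_mem hv]
    show (1 + (tt x v.1 : ℝ)) * (a (nrm v.1) * ((nrm v.1 : ℂ) ^ (-(z + (δ : ℂ)))).re) = _
    rw [LogE_Ee v.1 hz δ, tt_uK x v.1 (fun h => v.2 (h2 v.1 h)), mul_assoc]
  have e4 : |∑ v ∈ S, G' v| ≤ S.card * 4 := by
    refine (Finset.abs_sum_le_sum_abs _ _).trans ?_
    have h1 : ∀ v ∈ S, |G' v| ≤ 4 := by
      intro v _
      have h3 : (1 : ℝ) ≤ nrm v := by exact_mod_cast Nat.pos_of_ne_zero (nrm_ne_zero v)
      have h4 : (nrm v : ℝ) ^ (-(1 + δ)) ≤ 1 := Real.rpow_le_one_of_one_le_of_nonpos h3 (by linarith)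
      have h5 := hG'b v
      linarith
    have h6 := Finset.sum_le_card_nsmul S (fun v => |G' v|) 4 h1
    rwa [nsmul_eq_mul] at h6
  have e5 : Real.log ‖LX D a x (z + δ)‖ = Real.log ‖H (z + δ)‖ +
      Real.log ‖∏' v : {v : HeightOneSpectrum (𝓞 K) // Away K T v},
        FF a (nrm v.1) (tt x v.1) (z + δ)‖ := by
    rw [← Real.log_mul (norm_ne_zero_iff.2 hHne) (norm_ne_zero_iff.2 hPne), ← norm_mul]
    congr 2
    unfold LX
    rw [hH]
    dsimp only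
    rw [div_eq_mul_inv]
    ring
  have e6 : ∑' v : {v : HeightOneSpectrum (𝓞 K) // Away K T v},
      (1 + (tt x v.1 : ℝ)) * (a (nrm v.1) * ((nrm v.1 : ℂ) ^ (-(z + (δ : ℂ)))).re) =
      (∑ v ∈ S, G' v) + ∑' v : Io S, ((1 + (uK v.1 x : ℝ)) * Ee a z.im v.1) *
        (nrm v.1 : ℝ) ^ (-(1 + δ)) := by
    rw [← e3, ← e2, ← e1]
  rw [e6] at hPb
  rw [e5]
  rw [abs_le] at hHb hPb e4 ⊢
  constructor <;> linarith [hHb.1, hHb.2, hPb.1, hPb.2, e4.1, e4.2]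

end Pool.Agent.THF
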